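import Pool.Agent.Lib.Helper34.PH13

/-!
# PH14: the theorem for abelian groups of linear maps with at most one invariant
-/

set_option autoImplicit false

namespace Pool.Agent.Lib.Helper34.PH

open MvPolynomial Metric Set Filter Topology NNReal

variable {n : ℕ} {K : Set (Fin n → ℂ)}

/-- invariant monomials of a group of diagonal unitary matrices. -/
def ph14Mon (G : Subgroup (Fin n → Circle)) (a : Fin n → ℕ) : Prop := ∀ u ∈ G, ∏ i, u i ^ a i = 1

/-- a nonnegative relation as an invariant monomial. -/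
theorem ph14_toNat (G : Subgroup (Fin n → Circle)) (m : Fin n → ℤ) (hm : m ∈ ph13Rel G)
    (h0 : ∀ i, 0 ≤ m i) : ph14Mon G fun i => (m i).toNat := by
  intro u hu
  have h1 := hm u hu
  have h2 : ∀ i, u i ^ (m i).toNat = u i ^ m i := by
    intro i
    rw [← zpow_natCast, Int.toNat_of_nonneg (h0 i)]
  rw [Finset.prod_congr rfl fun i _ => h2 i]
  exact h1

/-- relations supported where the minimal invariant monomial is are multiples of it. -/
theorem ph14_mult (G : Subgroup (Fin n → Circle))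
    (hG : ∀ a b : Fin n → ℕ, ph14Mon G a → ph14Mon G b →
      ∃ p q : ℕ, (p ≠ 0 ∨ q ≠ 0) ∧ ∀ i, p * a i = q * b i)
    (M : Fin n → ℕ) (hM0 : M ≠ 0) (hM : ph14Mon G M)
    (hmin : ∀ a : Fin n → ℕ, a ≠ 0 → ph14Mon G a → ∑ i, M i ≤ ∑ i, a i)
    (m : Fin n → ℤ) (hm : m ∈ ph13Rel G) (hsupp : ∀ i, M i = 0 → m i = 0) :
    ∃ k : ℤ, ∀ i, m i = k * M i := by
  classical
  obtain ⟨j, hj⟩ : ∃ j, M j ≠ 0 := by
    by_contra hcon
    push Not at hcon
    exact hM0 (funext hcon)
  obtain ⟨i₀, hi₀, hle⟩ := Finset.exists_min_image (Finset.univ.filter fun i => M i ≠ 0)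
    (fun i => m i / (M i : ℤ)) ⟨j, Finset.mem_filter.2 ⟨Finset.mem_univ j, hj⟩⟩
  have hMi₀ : M i₀ ≠ 0 := (Finset.mem_filter.1 hi₀).2
  set k : ℤ := m i₀ / (M i₀ : ℤ) with hk
  have hnn : ∀ i, 0 ≤ m i - k * M i := by
    intro i
    by_cases hi : M i = 0
    · rw [hsupp i hi, hi, Nat.cast_zero, mul_zero, sub_zero]
    · have h1 := hle i (Finset.mem_filter.2 ⟨Finset.mem_univ i, hi⟩)
      have h2 : (0 : ℤ) < M i := by exact_mod_cast Nat.pos_of_ne_zero hi
      have h3 := (Int.le_ediv_iff_mul_le h2).1 h1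
      linarith
  refine ⟨k, ?_⟩
  have hMrel : (fun i => (M i : ℤ)) ∈ ph13Rel G := by
    intro u hu
    have h1 := hM u hu
    have h2 : ∀ i, u i ^ ((M i : ℕ) : ℤ) = u i ^ M i := fun i => zpow_natCast _ _
    rw [Finset.prod_congr rfl fun i _ => h2 i]
    exact h1
  have hdiff : (fun i => m i - k * (M i : ℤ)) ∈ ph13Rel G := by
    have h1 := (ph13Rel G).sub_mem hm ((ph13Rel G).zsmul_mem hMrel k)
    have h2 : (m - k • fun i => (M i : ℤ)) = fun i => m i - k * (M i : ℤ) := by
      funext i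
      rw [Pi.sub_apply, Pi.smul_apply, smul_eq_mul]
    rwa [h2] at h1
  set a : Fin n → ℕ := fun i => (m i - k * (M i : ℤ)).toNat with ha
  have haM : ph14Mon G a := ph14_toNat G _ hdiff hnn
  have hai : ∀ i, (a i : ℤ) = m i - k * M i := fun i => Int.toNat_of_nonneg (hnn i)
  by_cases ha0 : a = 0
  · intro i
    have h1 := hai i
    rw [ha0, Pi.zero_apply, Nat.cast_zero] at h1
    linarith
  · exfalso
    obtain ⟨p, q, hpq, heq⟩ := hG a M haM hM
    have hp : p ≠ 0 := by
      rintro rfl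
      have hq : q ≠ 0 := by
        rcases hpq with h | h
        · exact absurd rfl h
        · exact h
      have h1 := heq j
      rw [zero_mul] at h1
      exact (mul_ne_zero hq hj) h1.symm
    have h1 : (a i₀ : ℤ) < M i₀ := by
      rw [hai, hk]
      have h2 : (0 : ℤ) < M i₀ := by exact_mod_cast Nat.pos_of_ne_zero hMi₀
      have h3 := Int.emod_lt_of_pos (m i₀) h2
      have h4 := Int.emod_add_mul_ediv (m i₀) (M i₀)
      nlinarith
    have h1' : a i₀ < M i₀ := by exact_mod_cast h1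
    have h2 : q < p := by
      by_contra hcon
      rw [not_lt] at hcon
      have h3 := heq i₀
      have h4 : p * a i₀ < p * M i₀ := Nat.mul_lt_mul_of_pos_left h1' (Nat.pos_of_ne_zero hp)
      have h5 : p * M i₀ ≤ q * M i₀ := Nat.mul_le_mul_right _ hcon
      omega
    have h3 := hmin a ha0 haM
    have h4 : p * ∑ i, a i = q * ∑ i, M i := by
      rw [Finset.mul_sum, Finset.mul_sum]
      exact Finset.sum_congr rfl fun i _ => heq i
    have h5 : 0 < ∑ i, M i := by
      have h6 := Finset.single_le_sum (f := M) (fun i _ => Nat.zero_le _) (Finset.mem_univ j)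
      have h7 := Nat.pos_of_ne_zero hj
      omega
    have h6 : q * ∑ i, M i < p * ∑ i, M i := Nat.mul_lt_mul_of_pos_right h2 h5
    have h7 : p * ∑ i, M i ≤ p * ∑ i, a i := Nat.mul_le_mul_left _ h3
    omega

/-- invariance under the full torus of codimension one. -/
theorem ph14_inv (G : Subgroup (Fin n → Circle)) (M : Fin n → ℕ)
    (hmult : ∀ m ∈ ph13Rel G, (∀ i, M i = 0 → m i = 0) → ∃ k : ℤ, ∀ i, m i = k * M i)
    (S : Set (Fin n → ℂ)) (hS : IsClosed S) (hsupp : ∀ z ∈ S, ∀ i, M i = 0 → z i = 0)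
    (hinv : ∀ u ∈ G, ∀ z ∈ S, (fun i => (u i : ℂ) * z i) ∈ S) : PH9Inv M S := by
  classical
  intro u hu hp z hz
  let G' : Subgroup (Fin n → Circle) :=
    { carrier := {v | ∃ g ∈ G, ∀ i, M i ≠ 0 → v i = g i}
      one_mem' := ⟨1, G.one_mem, fun i _ => rfl⟩
      mul_mem' := by
        rintro a b ⟨g, hg, hga⟩ ⟨g', hg', hgb⟩
        exact ⟨g * g', G.mul_mem hg hg', fun i hi => by
          rw [Pi.mul_apply, Pi.mul_apply, hga i hi, hgb i hi]⟩
      inv_mem' := by
        rintro a ⟨g, hg, hga⟩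
        exact ⟨g⁻¹, G.inv_mem hg, fun i hi => by rw [Pi.inv_apply, Pi.inv_apply, hga i hi]⟩ }
  have hG' : ∀ v, v ∈ G' ↔ ∃ g ∈ G, ∀ i, M i ≠ 0 → v i = g i := fun v => Iff.rfl
  set u' : Fin n → Circle := fun i => ⟨u i, mem_sphere_zero_iff_norm.2 (hu i)⟩ with hu'
  have huu : ∀ i, ((u' i : Circle) : ℂ) = u i := fun i => rfl
  have hmem : u' ∈ closure (G' : Set (Fin n → Circle)) := by
    refine ph11_duality G' u' fun m hm => ?_
    have hm1 : m ∈ ph13Rel G := fun v hv => hm v ((hG' v).2 ⟨v, hv, fun i _ => rfl⟩)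
    have hm2 : ∀ i, M i = 0 → m i = 0 := by
      intro i hi
      by_contra hne
      have hne' : (m i : ℝ) ≠ 0 := Int.cast_ne_zero.2 hne
      have h1 := hm (Pi.mulSingle i (Circle.exp (Real.pi / m i))) ((hG' _).2 ⟨1, G.one_mem, fun k hk => by
        have hki : k ≠ i := fun he => hk (he ▸ hi)
        rw [Pi.mulSingle_eq_of_ne hki, Pi.one_apply]⟩)
      rw [Finset.prod_eq_single i (fun k _ hk => by
        rw [Pi.mulSingle_eq_of_ne hk, one_zpow]) (fun h => absurd (Finset.mem_univ i) h),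
        Pi.mulSingle_eq_same, ← Circle.exp_zsmul, zsmul_eq_mul, mul_div_cancel₀ _ hne'] at h1
      have h2 := congrArg (fun w : Circle => (w : ℂ)) h1
      simp only [Circle.coe_exp, Complex.exp_pi_mul_I, Circle.coe_one] at h2
      norm_num at h2
    obtain ⟨k, hk⟩ := hmult m hm1 hm2
    have h3 : ∀ i, u' i ^ m i = (u' i ^ M i) ^ k := by
      intro i
      rw [hk i, mul_comm, zpow_mul, zpow_natCast]
    rw [Finset.prod_congr rfl fun i _ => h3 i, Finset.prod_zpow]
    have h4 : ∏ i, u' i ^ M i = 1 := by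
      apply Circle.ext
      have h5 : ((∏ i, u' i ^ M i : Circle) : ℂ) = Circle.coeHom (∏ i, u' i ^ M i) := rfl
      rw [h5, map_prod, Circle.coe_one, ← hp]
      refine Finset.prod_congr rfl fun i _ => ?_
      rw [map_pow]
      rfl
    rw [h4, one_zpow]
  have h6 := ph13_closure (G := (G' : Set (Fin n → Circle))) hS z (fun v hv => by
    obtain ⟨g, hg, hgv⟩ := (hG' v).1 hv
    have h7 : (fun i => ((v i : Circle) : ℂ) * z i) = fun i => ((g i : Circle) : ℂ) * z i := by
      funext i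
      by_cases hi : M i = 0
      · rw [hsupp z hz i hi, mul_zero, mul_zero]
      · rw [hgv i hi]
    rw [h7]
    exact hinv g hg z hz) u' hmem
  exact h6

/-- **Theorem.** Let `G` be a group of diagonal unitary matrices whose invariant monomials are
pairwise proportional, and `K` a `G`-invariant compact set whose polynomially convex hull is larger
than `K`. Then the hull contains an analytic disc. -/
theorem ph14_main (hK : IsCompact K) (G : Subgroup (Fin n → Circle))
    (hG : ∀ a b : Fin n → ℕ, ph14Mon G a → ph14Mon G b →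
      ∃ p q : ℕ, (p ≠ 0 ∨ q ≠ 0) ∧ ∀ i, p * a i = q * b i)
    (hinv : ∀ u ∈ G, ∀ z ∈ K, (fun i => (u i : ℂ) * z i) ∈ K)
    (x : Fin n → ℂ) (hx : x ∈ hull K) (hxK : x ∉ K) : HasDisc (hull K) := by
  by_contra hno
  have hinvH : ∀ u ∈ G, ∀ z ∈ hull K, (fun i => (u i : ℂ) * z i) ∈ hull K := fun u hu _ hz =>
    ph1_smul (fun i => (u i : ℂ)) (hinv u hu) hz
  -- there is a nonzero point of the hull
  have hex : ∃ y ∈ hull K, y ≠ 0 := by
    by_contra hcon
    push Not at hcon
    obtain ⟨w, hw⟩ := ph3_nonempty hx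
    have h1 := hcon w (ph1_subset hw)
    have h2 := hcon x hx
    apply hxK
    rw [h2, ← h1]
    exact hw
  obtain ⟨y, hy, hy0⟩ := hex
  -- positive relations
  have hrel : ∀ z ∈ hull K, z ≠ 0 → ∃ a : Fin n → ℕ, a ≠ 0 ∧ ph14Mon G a ∧ ∀ i, z i ≠ 0 ↔ a i ≠ 0 := by
    intro z hz hz0
    obtain ⟨m, hm, h1, h2⟩ := ph13_relation G hinvH hno z hz
    have hnn : ∀ i, 0 ≤ m i := by
      intro i
      by_cases hi : z i = 0
      · rw [h2 i hi]
      · exact (h1 i hi).le
    have hiff : ∀ i, z i ≠ 0 ↔ (m i).toNat ≠ 0 := by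
      intro i
      constructor
      · intro hi h0
        have := h1 i hi
        omega
      · intro h0 hi
        rw [h2 i hi] at h0
        exact h0 rfl
    refine ⟨fun i => (m i).toNat, ?_, ph14_toNat G m hm hnn, hiff⟩
    intro h0
    obtain ⟨i, hi⟩ := ph13_ne hz0
    exact (hiff i).1 hi (congrFun h0 i)
  obtain ⟨ay, hay0, hay, -⟩ := hrel y hy hy0
  -- the minimal invariant monomial
  have hexs : ∃ s : ℕ, ∃ a : Fin n → ℕ, a ≠ 0 ∧ ph14Mon G a ∧ ∑ i, a i = s := ⟨_, ay, hay0, hay, rfl⟩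
  classical
  obtain ⟨M, hM0, hM, hMs⟩ := Nat.find_spec hexs
  have hmin : ∀ a : Fin n → ℕ, a ≠ 0 → ph14Mon G a → ∑ i, M i ≤ ∑ i, a i := by
    intro a ha0 ha
    rw [hMs]
    exact Nat.find_min' hexs ⟨a, ha0, ha, rfl⟩
  obtain ⟨j, hj⟩ : ∃ j, M j ≠ 0 := by
    by_contra hcon
    push Not at hcon
    exact hM0 (funext hcon)
  have hsupp : ∀ z ∈ hull K, z ≠ 0 → ∀ i, z i ≠ 0 ↔ M i ≠ 0 := by
    intro z hz hz0 i
    obtain ⟨a, ha0, ha, hiff⟩ := hrel z hz hz0
    obtain ⟨p, q, hpq, heq⟩ := hG a M ha hM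
    obtain ⟨l, hl⟩ := ph13_ne hz0
    have hal := (hiff l).1 hl
    have hp : p ≠ 0 := by
      rintro rfl
      have hq : q ≠ 0 := by
        rcases hpq with h | h
        · exact absurd rfl h
        · exact h
      have h1 := heq j
      rw [zero_mul] at h1
      exact (mul_ne_zero hq hj) h1.symm
    have hq : q ≠ 0 := by
      rintro rfl
      have h1 := heq l
      rw [zero_mul] at h1
      exact (mul_ne_zero hp hal) h1
    rw [hiff i]
    constructor
    · intro h1 h2
      have h3 := heq i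
      rw [h2, mul_zero] at h3
      exact (mul_ne_zero hp h1) h3
    · intro h1 h2
      have h3 := heq i
      rw [h2, mul_zero] at h3
      exact (mul_ne_zero hq h1) h3.symm
  have hzero : ∀ z ∈ hull K, ∀ i, M i = 0 → z i = 0 := by
    intro z hz i hi
    by_contra hne
    have hz0 : z ≠ 0 := fun h => hne (by rw [h, Pi.zero_apply])
    exact (hsupp z hz hz0 i).1 hne hi
  have hinvM : PH9Inv M K := ph14_inv G M (fun m hm hs => ph14_mult G hG M hM0 hM hmin m hm hs) K
    hK.isClosed (fun z hz => hzero z (ph1_subset hz)) hinv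
  exact ph13_core hK hno M hinvM hsupp j hj x hx hxK

end Pool.Agent.Lib.Helper34.PH
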