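import Mathlib

/-!
# PH1: polynomial hulls, basics
-/

set_option autoImplicit false

namespace Pool.Agent.Lib.Helper34.PH

open MvPolynomial Metric

/-- the polynomially convex hull. -/
def hull {n : ℕ} (K : Set (Fin n → ℂ)) : Set (Fin n → ℂ) :=
  {z | ∀ P : MvPolynomial (Fin n) ℂ, ∀ c : ℝ, (∀ w ∈ K, ‖eval w P‖ ≤ c) → ‖eval z P‖ ≤ c}

/-- `S` contains an analytic disc. -/
def HasDisc {n : ℕ} (S : Set (Fin n → ℂ)) : Prop :=
  ∃ f : ℂ → (Fin n → ℂ), DifferentiableOn ℂ f (ball (0 : ℂ) 1) ∧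
    (∃ a ∈ ball (0 : ℂ) 1, ∃ b ∈ ball (0 : ℂ) 1, f a ≠ f b) ∧ ∀ ζ ∈ ball (0 : ℂ) 1, f ζ ∈ S

variable {n : ℕ} {K : Set (Fin n → ℂ)}

theorem ph1_continuous_eval (P : MvPolynomial (Fin n) ℂ) :
    Continuous fun z : Fin n → ℂ => eval z P := MvPolynomial.continuous_eval P

theorem ph1_subset : K ⊆ hull K := fun z hz _ _ h => h z hz

theorem ph1_hull_hull {z : Fin n → ℂ} (h : ∀ P : MvPolynomial (Fin n) ℂ, ∀ c : ℝ,
    (∀ w ∈ hull K, ‖eval w P‖ ≤ c) → ‖eval z P‖ ≤ c) : z ∈ hull K :=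
  fun P c hc => h P c fun w hw => hw P c hc

theorem ph1_isClosed : IsClosed (hull K) := by
  have h : hull K = ⋂ (P : MvPolynomial (Fin n) ℂ), ⋂ (c : ℝ), ⋂ (_ : ∀ w ∈ K, ‖eval w P‖ ≤ c),
      {z : Fin n → ℂ | ‖eval z P‖ ≤ c} := by
    ext z
    simp only [hull, Set.mem_setOf_eq, Set.mem_iInter]
  rw [h]
  refine isClosed_iInter fun P => isClosed_iInter fun c => isClosed_iInter fun _ => ?_
  exact isClosed_le (ph1_continuous_eval P).norm continuous_const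

theorem ph1_isCompact (hK : IsCompact K) : IsCompact (hull K) := by
  obtain ⟨R, hR⟩ := hK.isBounded.exists_norm_le
  refine (isCompact_closedBall (0 : Fin n → ℂ) (max R 0)).of_isClosed_subset ph1_isClosed ?_
  intro z hz
  rw [mem_closedBall_zero_iff, pi_norm_le_iff_of_nonneg (le_max_right _ _)]
  intro i
  have h := hz (X i) (max R 0) (fun w hw => by
    rw [eval_X]
    exact ((norm_le_pi_norm w i).trans (hR w hw)).trans (le_max_left _ _))
  rwa [eval_X] at h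

/-- the polynomial `P(u z)`, `u` acting diagonally. -/
theorem ph1_smul (u : Fin n → ℂ) (hu : ∀ w ∈ K, (fun i => u i * w i) ∈ K) {z : Fin n → ℂ}
    (hz : z ∈ hull K) : (fun i => u i * z i) ∈ hull K := by
  intro P c hc
  have key : ∀ w : Fin n → ℂ, eval w (bind₁ (fun i => C (u i) * X i) P) =
      eval (fun i => u i * w i) P := by
    intro w
    rw [eval, eval₂Hom_bind₁]
    simp only [map_mul, eval₂Hom_C, RingHom.id_apply, eval₂Hom_X']
    rfl
  have h := hz (bind₁ (fun i => C (u i) * X i) P) c (fun w hw => by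
    rw [key]
    exact hc _ (hu w hw))
  rwa [key] at h

/-- discs on other balls. -/
theorem ph1_disc {S : Set (Fin n → ℂ)} (g : ℂ → (Fin n → ℂ)) (c : ℂ) (r : ℝ) (hr : 0 < r)
    (hg : DifferentiableOn ℂ g (ball c r)) (hne : ∃ a ∈ ball c r, ∃ b ∈ ball c r, g a ≠ g b)
    (hS : ∀ ζ ∈ ball c r, g ζ ∈ S) : HasDisc S := by
  have hmap : ∀ ζ ∈ ball (0 : ℂ) 1, c + r * ζ ∈ ball c r := by
    intro ζ hζ
    rw [mem_ball_zero_iff] at hζ
    rw [mem_ball, dist_eq_norm, add_sub_cancel_left, norm_mul, Complex.norm_real,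
      Real.norm_of_nonneg hr.le]
    nlinarith
  have hinv : ∀ a ∈ ball c r, ∃ ζ ∈ ball (0 : ℂ) 1, c + r * ζ = a := by
    intro a ha
    have hr' : (r : ℂ) ≠ 0 := Complex.ofReal_ne_zero.2 hr.ne'
    refine ⟨(a - c) / r, ?_, ?_⟩
    · rw [mem_ball, dist_eq_norm] at ha
      rw [mem_ball_zero_iff, norm_div, Complex.norm_real, Real.norm_of_nonneg hr.le, div_lt_one hr]
      exact ha
    · rw [mul_div_cancel₀ _ hr', add_sub_cancel]
  refine ⟨fun ζ => g (c + r * ζ), ?_, ?_, fun ζ hζ => hS _ (hmap ζ hζ)⟩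
  · have h1 : DifferentiableOn ℂ (fun ζ : ℂ => c + r * ζ) (ball (0 : ℂ) 1) := by fun_prop
    exact hg.comp h1 hmap
  · obtain ⟨a, ha, b, hb, hab⟩ := hne
    obtain ⟨a', ha', rfl⟩ := hinv a ha
    obtain ⟨b', hb', rfl⟩ := hinv b hb
    exact ⟨a', ha', b', hb', hab⟩

end Pool.Agent.Lib.Helper34.PH
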