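import Mathlib

/-!
# PH11: duality for closed subgroups of the torus
-/

set_option autoImplicit false

namespace Pool.Agent.Lib.Helper34.PH

open Set Filter Topology MeasureTheory

variable {n : ℕ}

/-- the character with exponents `m`. -/
noncomputable def ph11Chi (m : Fin n → ℤ) (u : Fin n → Circle) : ℂ := ∏ i, ((u i : Circle) : ℂ) ^ m i

theorem ph11_mul (m : Fin n → ℤ) (u v : Fin n → Circle) :
    ph11Chi m (u * v) = ph11Chi m u * ph11Chi m v := by
  unfold ph11Chi
  rw [← Finset.prod_mul_distrib]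
  refine Finset.prod_congr rfl fun i _ => ?_
  rw [Pi.mul_apply, Circle.coe_mul, mul_zpow]

theorem ph11_coe (m : Fin n → ℤ) (u : Fin n → Circle) :
    ph11Chi m u = ((∏ i, u i ^ m i : Circle) : ℂ) := by
  unfold ph11Chi
  have h1 : ((∏ i, u i ^ m i : Circle) : ℂ) = Circle.coeHom (∏ i, u i ^ m i) := rfl
  rw [h1, map_prod]
  refine Finset.prod_congr rfl fun i _ => ?_
  rw [map_zpow]
  rfl

theorem ph11_eq_one (m : Fin n → ℤ) (u : Fin n → Circle) :
    ph11Chi m u = 1 ↔ ∏ i, u i ^ m i = 1 := by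
  rw [ph11_coe]
  constructor
  · intro h
    exact Circle.ext (by rw [h, Circle.coe_one])
  · intro h
    rw [h, Circle.coe_one]

theorem ph11_continuous (m : Fin n → ℤ) : Continuous (ph11Chi m) := by
  unfold ph11Chi
  refine continuous_finset_prod _ fun i _ => ?_
  refine Continuous.zpow₀ (continuous_subtype_val.comp (continuous_apply i)) _ fun u => ?_
  left
  exact Circle.coe_ne_zero _

/-- trigonometric polynomials approximate continuous functions on the torus. -/
theorem ph11_approx (f : C(Fin n → Circle, ℝ)) (ε : ℝ) (hε : 0 < ε) :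
    ∃ c : (Fin n → ℤ) →₀ ℂ, ∀ u : Fin n → Circle,
      ‖(∑ m ∈ c.support, c m * ph11Chi m u) - (f u : ℂ)‖ < ε := by
  let e : UnitAddTorus (Fin n) → (Fin n → Circle) := fun x i => AddCircle.toCircle (x i)
  have he : Continuous e := continuous_pi fun i => AddCircle.continuous_toCircle.comp (continuous_apply i)
  let g : C(UnitAddTorus (Fin n), ℂ) :=
    ⟨fun x => (f (e x) : ℂ), Complex.continuous_ofReal.comp (f.continuous.comp he)⟩
  have hg : g ∈ (Submodule.span ℂ (range <| UnitAddTorus.mFourier (d := Fin n))).topologicalClosure := by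
    rw [UnitAddTorus.span_mFourier_closure_eq_top]
    trivial
  rw [← SetLike.mem_coe, Submodule.topologicalClosure_coe, Metric.mem_closure_iff] at hg
  obtain ⟨p, hp, hpg⟩ := hg ε hε
  rw [SetLike.mem_coe, Finsupp.mem_span_range_iff_exists_finsupp] at hp
  obtain ⟨c, rfl⟩ := hp
  refine ⟨c, fun u => ?_⟩
  have hu : ∃ x : UnitAddTorus (Fin n), e x = u := by
    have h1 : ∀ i, ∃ y : UnitAddCircle, AddCircle.toCircle y = u i := by
      intro i
      refine ⟨((Complex.arg (u i : ℂ) / (2 * Real.pi) : ℝ) : UnitAddCircle), ?_⟩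
      rw [AddCircle.toCircle_apply_mk]
      have h2 : (2 * Real.pi / 1 * (Complex.arg (u i : ℂ) / (2 * Real.pi)) : ℝ) =
          Complex.arg (u i : ℂ) := by
        have := Real.pi_pos
        field_simp
      rw [h2]
      exact Circle.exp_arg (u i)
    choose x hx using h1
    exact ⟨x, funext hx⟩
  obtain ⟨x, rfl⟩ := hu
  have h3 : ∀ m : Fin n → ℤ, UnitAddTorus.mFourier m x = ph11Chi m (e x) := by
    intro m
    change ∏ i, fourier (m i) (x i) = ∏ i, ((AddCircle.toCircle (x i) : Circle) : ℂ) ^ m i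
    refine Finset.prod_congr rfl fun i _ => ?_
    rw [fourier_apply, AddCircle.toCircle_zsmul]
    exact Circle.coe_zpow _ _
  have h4 := ContinuousMap.norm_coe_le_norm (g - c.sum fun i a => a • UnitAddTorus.mFourier i) x
  rw [dist_eq_norm] at hpg
  rw [ContinuousMap.sub_apply, norm_sub_rev] at h4
  have h5 : (c.sum fun i a => a • UnitAddTorus.mFourier i) x = ∑ m ∈ c.support, c m * ph11Chi m (e x) := by
    rw [Finsupp.sum, ContinuousMap.sum_apply]
    refine Finset.sum_congr rfl fun m _ => ?_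
    rw [ContinuousMap.smul_apply, smul_eq_mul, h3]
  rw [h5] at h4
  exact h4.trans_lt hpg

theorem ph11_duality (G : Subgroup (Fin n → Circle)) (u₀ : Fin n → Circle)
    (h : ∀ m : Fin n → ℤ, (∀ u ∈ G, ∏ i, u i ^ m i = 1) → ∏ i, u₀ i ^ m i = 1) :
    u₀ ∈ closure (G : Set (Fin n → Circle)) := by
  by_contra hu
  let Γ : Subgroup (Fin n → Circle) := G.topologicalClosure
  have hΓc : IsClosed (Γ : Set (Fin n → Circle)) := Subgroup.isClosed_topologicalClosure G
  have hGΓ : ∀ g ∈ G, g ∈ Γ := fun g hg => Subgroup.le_topologicalClosure G hg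
  have hu₀ : u₀ ∉ Γ := hu
  have hco : IsClosed ((fun v => u₀ * v) '' (Γ : Set (Fin n → Circle))) :=
    (Homeomorph.mulLeft u₀).isClosedMap _ hΓc
  have hdisj : Disjoint (Γ : Set (Fin n → Circle)) ((fun v => u₀ * v) '' (Γ : Set (Fin n → Circle))) := by
    rw [Set.disjoint_left]
    rintro _ h1 ⟨v, hv, rfl⟩
    apply hu₀
    have h2 := Γ.mul_mem h1 (Γ.inv_mem hv)
    simpa using h2
  obtain ⟨f, hf0, hf1, -⟩ := exists_continuous_zero_one_of_isClosed hΓc hco hdisj
  obtain ⟨c, hc⟩ := ph11_approx f (1 / 4) (by norm_num)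
  haveI : CompactSpace Γ := isCompact_iff_compactSpace.1 hΓc.isCompact
  letI : MeasurableSpace Γ := borel Γ
  haveI : BorelSpace Γ := ⟨rfl⟩
  let μ : Measure Γ := Measure.haarMeasure ⊤
  haveI hprob : IsProbabilityMeasure μ := ⟨by
    have h1 := Measure.haarMeasure_self (K₀ := (⊤ : TopologicalSpace.PositiveCompacts Γ))
    rwa [TopologicalSpace.PositiveCompacts.coe_top] at h1⟩
  -- integrals of characters
  have hI : ∀ m : Fin n → ℤ, (ph11Chi m u₀ - 1) * ∫ g : Γ, ph11Chi m g.1 ∂μ = 0 := by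
    intro m
    by_cases hm : ∀ u ∈ G, ∏ i, u i ^ m i = 1
    · rw [(ph11_eq_one m u₀).2 (h m hm), sub_self, zero_mul]
    · push Not at hm
      obtain ⟨g₀, hg₀, hne⟩ := hm
      have h1 := integral_mul_left_eq_self (μ := μ) (fun g : Γ => ph11Chi m g.1) ⟨g₀, hGΓ g₀ hg₀⟩
      have h2 : (fun g : Γ => ph11Chi m ((⟨g₀, hGΓ g₀ hg₀⟩ : Γ) * g : Γ).1) =
          fun g : Γ => ph11Chi m g₀ * ph11Chi m g.1 := by
        funext g
        exact ph11_mul m g₀ g.1
      rw [h2, integral_const_mul] at h1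
      have h3 : (ph11Chi m g₀ - 1) * ∫ g : Γ, ph11Chi m g.1 ∂μ = 0 := by
        rw [sub_mul, one_mul, h1, sub_self]
      have h4 : ph11Chi m g₀ - 1 ≠ 0 := fun h0 => hne ((ph11_eq_one m g₀).1 (sub_eq_zero.1 h0))
      rw [(mul_eq_zero.1 h3).resolve_left h4, mul_zero]
  have hint : ∀ m : Fin n → ℤ, Integrable (fun g : Γ => ph11Chi m g.1) μ := by
    intro m
    have h1 : Continuous fun g : Γ => ph11Chi m g.1 := (ph11_continuous m).comp continuous_subtype_val
    exact h1.integrable_of_hasCompactSupport (HasCompactSupport.of_compactSpace _)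
  set φ : Γ → ℂ := fun g => ∑ m ∈ c.support, c m * ((ph11Chi m u₀ - 1) * ph11Chi m g.1) with hφ
  have hφ0 : ∫ g, φ g ∂μ = 0 := by
    rw [hφ, integral_finset_sum _ fun m _ => ((hint m).const_mul _).const_mul _]
    refine Finset.sum_eq_zero fun m _ => ?_
    rw [integral_const_mul, integral_const_mul, hI, mul_zero]
  have hφi : Integrable φ μ := integrable_finset_sum _ fun m _ => ((hint m).const_mul _).const_mul _
  have hφre : ∀ g : Γ, (1 / 2 : ℝ) ≤ (φ g).re := by
    intro g
    have h1 := hc (u₀ * g.1)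
    have h2 := hc g.1
    rw [hf1 ⟨g.1, g.2, rfl⟩] at h1
    rw [hf0 g.2] at h2
    simp only [Pi.one_apply, Pi.zero_apply, Complex.ofReal_one, Complex.ofReal_zero, sub_zero] at h1 h2
    have h3 : φ g = (∑ m ∈ c.support, c m * ph11Chi m (u₀ * g.1)) -
        ∑ m ∈ c.support, c m * ph11Chi m g.1 := by
      rw [hφ, ← Finset.sum_sub_distrib]
      refine Finset.sum_congr rfl fun m _ => ?_
      rw [ph11_mul]
      ring
    have h4 := (abs_le.1 (Complex.abs_re_le_norm ((∑ m ∈ c.support, c m * ph11Chi m (u₀ * g.1)) - 1))).1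
    have h5 := (abs_le.1 (Complex.abs_re_le_norm (∑ m ∈ c.support, c m * ph11Chi m g.1))).2
    rw [Complex.sub_re, Complex.one_re] at h4
    rw [h3, Complex.sub_re]
    linarith
  have h6 : (1 / 2 : ℝ) ≤ ∫ g, (φ g).re ∂μ := by
    calc (1 / 2 : ℝ) = ∫ _ : Γ, (1 / 2 : ℝ) ∂μ := by
          rw [integral_const, probReal_univ, one_smul]
      _ ≤ ∫ g, (φ g).re ∂μ := integral_mono (integrable_const _) hφi.re hφre
  have h7 : ∫ g, (φ g).re ∂μ = (∫ g, φ g ∂μ).re := integral_re hφi
  rw [h7, hφ0, Complex.zero_re] at h6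
  linarith

end Pool.Agent.Lib.Helper34.PH
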