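import Mathlib

/-!
# PH12: Stiemke's lemma for lattices
-/

set_option autoImplicit false

namespace Pool.Agent.Lib.Helper34.PH

open Set Filter Topology

variable {n : ℕ}

/-- simultaneous recurrence. -/
theorem ph12_recur {F : Type} [Fintype F] (c : F → ℝ) (ε : ℝ) (hε : 0 < ε) (N₀ : ℕ) :
    ∃ N : ℕ, N₀ ≤ N ∧ ∃ p : F → ℤ, ∀ m, |(N : ℝ) * c m - p m| < ε := by
  let s : ℕ → (F → UnitAddCircle) := fun k m => (((k : ℝ) * c m : ℝ) : UnitAddCircle)
  obtain ⟨a, -, φ, hφ, hlim⟩ := isCompact_univ.tendsto_subseq (fun k => mem_univ (s k))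
  have hc := hlim.cauchySeq
  rw [Metric.cauchySeq_iff] at hc
  obtain ⟨k, hk⟩ := hc ε hε
  have h1 := hk (k + N₀) (Nat.le_add_right _ _) k le_rfl
  have hmono : ∀ j : ℕ, φ k + j ≤ φ (k + j) := by
    intro j
    induction j with
    | zero => exact le_rfl
    | succ j ih =>
      have := hφ (Nat.lt_succ_self (k + j))
      have h2 : φ (k + j) < φ (k + (j + 1)) := this
      omega
  have h3 := hmono N₀
  refine ⟨φ (k + N₀) - φ k, by omega, fun m => round (((φ (k + N₀) - φ k : ℕ) : ℝ) * c m), fun m => ?_⟩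
  have h4 := (dist_pi_lt_iff hε).1 h1 m
  rw [dist_eq_norm] at h4
  change ‖(((φ (k + N₀) : ℝ) * c m : ℝ) : UnitAddCircle) - (((φ k : ℝ) * c m : ℝ) : UnitAddCircle)‖ < ε at h4
  rw [← AddCircle.coe_sub, UnitAddCircle.norm_eq] at h4
  have h5 : (φ (k + N₀) : ℝ) * c m - (φ k : ℝ) * c m = ((φ (k + N₀) - φ k : ℕ) : ℝ) * c m := by
    rw [Nat.cast_sub (by omega)]
    ring
  rw [h5] at h4
  exact h4

/-- an integral vector as a vector of the Euclidean space. -/
noncomputable def ph12Vec (m : Fin n → ℤ) : EuclideanSpace ℝ (Fin n) :=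
  WithLp.toLp 2 fun i => (m i : ℝ)

/-- **Stiemke's lemma** for a lattice of relations. -/
theorem ph12_stiemke (L : AddSubgroup (Fin n → ℤ)) (J : Set (Fin n))
    (h : ∀ a : Fin n → ℝ, (∀ m ∈ L, ∑ i, a i * (m i : ℝ) = 0) → (∀ i ∈ J, a i ≤ 0) →
      ∀ i ∈ J, a i = 0) : ∃ m ∈ L, (∀ i ∈ J, 0 < m i) ∧ ∀ i ∉ J, m i = 0 := by
  classical
  by_cases hJ : J = ∅
  · refine ⟨0, L.zero_mem, fun i hi => ?_, fun i _ => rfl⟩
    rw [hJ] at hi
    exact hi.elim
  obtain ⟨j₀, hj₀⟩ := nonempty_iff_ne_empty.2 hJ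
  let U : Submodule ℝ (EuclideanSpace ℝ (Fin n)) := Submodule.span ℝ (ph12Vec '' (L : Set (Fin n → ℤ)))
  -- coordinate projection
  let TJ : EuclideanSpace ℝ (Fin n) →ₗ[ℝ] EuclideanSpace ℝ (Fin n) :=
    { toFun := fun a => WithLp.toLp 2 fun i => if i ∈ J then a i else 0
      map_add' := fun a b => by
        ext i
        change (if i ∈ J then a i + b i else 0) = (if i ∈ J then a i else 0) + (if i ∈ J then b i else 0)
        split_ifs
        · rfl
        · rw [add_zero]
      map_smul' := fun r a => by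
        ext i
        change (if i ∈ J then r * a i else 0) = r * (if i ∈ J then a i else 0)
        split_ifs
        · rfl
        · rw [mul_zero] }
  have hTJ : ∀ (a : EuclideanSpace ℝ (Fin n)) (i : Fin n), TJ a i = if i ∈ J then a i else 0 := fun a i => rfl
  let W : Submodule ℝ (EuclideanSpace ℝ (Fin n)) := Uᗮ.map TJ
  let Δ : Set (EuclideanSpace ℝ (Fin n)) := convexHull ℝ ((fun i => EuclideanSpace.single i (1 : ℝ)) '' J)
  have hΔc : IsCompact Δ := (toFinite _).isCompact_convexHull ℝ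
  have hΔs : Δ ⊆ {y : EuclideanSpace ℝ (Fin n) | (∀ i, 0 ≤ y i) ∧ (∀ i ∉ J, y i = 0) ∧ ∑ i, y i = 1} := by
    refine convexHull_min ?_ ?_
    · rintro _ ⟨j, hj, rfl⟩
      refine ⟨fun i => ?_, fun i hi => ?_, ?_⟩
      · rw [PiLp.single_apply]
        split_ifs <;> norm_num
      · have hij : i ≠ j := fun he => hi (he ▸ hj)
        rw [PiLp.single_apply, if_neg hij]
      · simp only [PiLp.single_apply, Finset.sum_ite_eq', Finset.mem_univ, if_true]
    · intro y hy z hz a b ha hb hab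
      refine ⟨fun i => ?_, fun i hi => ?_, ?_⟩
      · have h1 : (a • y + b • z) i = a * y i + b * z i := rfl
        rw [h1]
        exact add_nonneg (mul_nonneg ha (hy.1 i)) (mul_nonneg hb (hz.1 i))
      · have h1 : (a • y + b • z) i = a * y i + b * z i := rfl
        rw [h1, hy.2.1 i hi, hz.2.1 i hi, mul_zero, mul_zero, add_zero]
      · have h1 : ∀ i, (a • y + b • z) i = a * y i + b * z i := fun i => rfl
        simp only [h1]
        rw [Finset.sum_add_distrib, ← Finset.mul_sum, ← Finset.mul_sum, hy.2.2, hz.2.2, mul_one, mul_one,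
          hab]
  have hperp : ∀ a ∈ Uᗮ, ∀ m ∈ L, ∑ i, a i * (m i : ℝ) = 0 := by
    intro a ha m hm
    have h1 := (Submodule.mem_orthogonal U a).1 ha (ph12Vec m)
      (Submodule.subset_span ⟨m, hm, rfl⟩)
    rw [PiLp.inner_apply] at h1
    simpa [ph12Vec] using h1
  have hdisj : Disjoint (W : Set (EuclideanSpace ℝ (Fin n))) Δ := by
    rw [Set.disjoint_left]
    rintro _ ⟨a, ha, rfl⟩ hy
    have hy' := hΔs hy
    have h1 := h (fun i => -a i) (fun m hm => by
      have := hperp a ha m hm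
      simp only [neg_mul, Finset.sum_neg_distrib, this, neg_zero]) (fun i hi => by
      have := hy'.1 i
      rw [hTJ, if_pos hi] at this
      linarith)
    have h2 : ∀ i, TJ a i = 0 := by
      intro i
      rw [hTJ]
      by_cases hi : i ∈ J
      · rw [if_pos hi]
        have := h1 i hi
        linarith
      · rw [if_neg hi]
    have h3 := hy'.2.2
    rw [Finset.sum_congr rfl fun i _ => h2 i, Finset.sum_const_zero] at h3
    exact zero_ne_one h3
  obtain ⟨f, u, v, hfu, huv, hfv⟩ := geometric_hahn_banach_closed_compact W.convex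
    W.closed_of_finiteDimensional (convex_convexHull ℝ _) hΔc hdisj
  have hu0 : 0 < u := by
    have := hfu 0 W.zero_mem
    rwa [map_zero] at this
  have hf0 : ∀ w ∈ W, f w = 0 := by
    intro w hw
    by_contra hne
    have h1 := hfu ((u / f w) • w) (W.smul_mem _ hw)
    rw [map_smul, smul_eq_mul, div_mul_cancel₀ _ hne] at h1
    exact lt_irrefl _ h1
  set b : EuclideanSpace ℝ (Fin n) := WithLp.toLp 2 fun i => if i ∈ J then f (EuclideanSpace.single i 1) else 0 with hb
  have hbi : ∀ i, b i = if i ∈ J then f (EuclideanSpace.single i 1) else 0 := fun i => rfl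
  have hbpos : ∀ i ∈ J, 0 < b i := by
    intro i hi
    rw [hbi, if_pos hi]
    have h1 := hfv (EuclideanSpace.single i 1) (subset_convexHull ℝ _ ⟨i, hi, rfl⟩)
    linarith
  have hb0 : ∀ i ∉ J, b i = 0 := fun i hi => by rw [hbi, if_neg hi]
  have hbU : b ∈ U := by
    rw [← Submodule.orthogonal_orthogonal U, Submodule.mem_orthogonal]
    intro a ha
    have h1 := hf0 (TJ a) ⟨a, ha, rfl⟩
    have h2 : TJ a = ∑ i, (TJ a i) • EuclideanSpace.single i (1 : ℝ) := by
      ext k
      rw [WithLp.ofLp_sum, Finset.sum_apply]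
      simp only [WithLp.ofLp_smul, Pi.smul_apply, PiLp.single_apply, smul_eq_mul, mul_ite, mul_one,
        mul_zero, Finset.sum_ite_eq, Finset.mem_univ, if_true]
    rw [h2, map_sum] at h1
    rw [PiLp.inner_apply, ← h1]
    refine Finset.sum_congr rfl fun i _ => ?_
    rw [map_smul, smul_eq_mul, hTJ, hbi]
    by_cases hi : i ∈ J
    · rw [if_pos hi, if_pos hi]
      simp [mul_comm]
    · rw [if_neg hi, if_neg hi]
      simp
  -- write `b` as a real combination of relations
  obtain ⟨c, hcL, hcb⟩ := (Finsupp.mem_span_image_iff_linearCombination ℝ).1 hbU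
  have hcb' : ∀ i, ∑ m ∈ c.support, c m * (m i : ℝ) = b i := by
    intro i
    rw [← hcb, Finsupp.linearCombination_apply, Finsupp.sum, WithLp.ofLp_sum, Finset.sum_apply]
    rfl
  have hmem : ∀ m ∈ c.support, m ∈ L := fun m hm => hcL hm
  -- constants
  set C : ℝ := ∑ m ∈ c.support, ∑ i, |(m i : ℝ)| with hC
  have hC0 : 0 ≤ C := Finset.sum_nonneg fun m _ => Finset.sum_nonneg fun i _ => abs_nonneg _
  obtain ⟨N₀, hN₀⟩ : ∃ N₀ : ℕ, ∀ i ∈ J, 1 ≤ (N₀ : ℝ) * b i := by
    obtain ⟨N, hN⟩ := exists_nat_ge (∑ i : Fin n, if i ∈ J then (b i)⁻¹ else 0)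
    refine ⟨N, fun i hi => ?_⟩
    have h1 : (b i)⁻¹ ≤ ∑ i : Fin n, if i ∈ J then (b i)⁻¹ else 0 := by
      have h2 := Finset.single_le_sum (f := fun i : Fin n => if i ∈ J then (b i)⁻¹ else 0)
        (fun k _ => by
          split_ifs with hk
          · exact (inv_pos.2 (hbpos k hk)).le
          · exact le_rfl) (Finset.mem_univ i)
      simpa [hi] using h2
    have h3 := hbpos i hi
    calc (1 : ℝ) = (b i)⁻¹ * b i := (inv_mul_cancel₀ h3.ne').symm
      _ ≤ N * b i := mul_le_mul_of_nonneg_right (h1.trans hN) h3.le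
  obtain ⟨N, hN, p, hp⟩ := ph12_recur (fun m : c.support => c m.1) (1 / (2 * (C + 1))) (by positivity) N₀
  set q : Fin n → ℤ := ∑ m : c.support, p m • m.1 with hq
  have hqL : q ∈ L := L.sum_mem fun m _ => L.zsmul_mem (hmem m.1 m.2) _
  have hqi : ∀ i, |(q i : ℝ) - N * b i| < 1 / 2 := by
    intro i
    have h1 : (q i : ℝ) - N * b i = -∑ m : c.support, ((N : ℝ) * c m.1 - p m) * (m.1 i : ℝ) := by
      rw [← hcb' i, hq, ← Finset.sum_coe_sort c.support fun m => c m * (m i : ℝ), Finset.sum_apply,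
        Int.cast_sum, Finset.mul_sum, ← Finset.sum_sub_distrib, ← Finset.sum_neg_distrib]
      refine Finset.sum_congr rfl fun m _ => ?_
      rw [Pi.smul_apply, smul_eq_mul, Int.cast_mul]
      ring
    rw [h1, abs_neg]
    have h2 : ∀ m : c.support, |((N : ℝ) * c m.1 - p m) * (m.1 i : ℝ)| ≤
        1 / (2 * (C + 1)) * ∑ k, |((m.1 k : ℤ) : ℝ)| := by
      intro m
      rw [abs_mul]
      refine mul_le_mul (hp m).le ?_ (abs_nonneg _) (by positivity)
      exact Finset.single_le_sum (f := fun k => |((m.1 k : ℤ) : ℝ)|) (fun k _ => abs_nonneg _)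
        (Finset.mem_univ i)
    calc |∑ m : c.support, ((N : ℝ) * c m.1 - p m) * (m.1 i : ℝ)|
        ≤ ∑ m : c.support, |((N : ℝ) * c m.1 - p m) * (m.1 i : ℝ)| := Finset.abs_sum_le_sum_abs _ _
      _ ≤ ∑ m : c.support, 1 / (2 * (C + 1)) * ∑ k, |((m.1 k : ℤ) : ℝ)| :=
          Finset.sum_le_sum fun m _ => h2 m
      _ = 1 / (2 * (C + 1)) * C := by
          rw [← Finset.mul_sum, hC, ← Finset.sum_coe_sort c.support fun m => ∑ k, |((m k : ℤ) : ℝ)|]
      _ < 1 / 2 := by
          rw [div_mul_eq_mul_div, one_mul, div_lt_div_iff₀ (by positivity) (by norm_num)]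
          nlinarith
  refine ⟨q, hqL, fun i hi => ?_, fun i hi => ?_⟩
  · have h1 := (abs_lt.1 (hqi i)).1
    have h2 := hN₀ i hi
    have h3 : (N₀ : ℝ) * b i ≤ N * b i :=
      mul_le_mul_of_nonneg_right (Nat.cast_le.2 hN) (hbpos i hi).le
    have h4 : (0 : ℝ) < q i := by linarith
    exact_mod_cast h4
  · have h1 := hqi i
    rw [hb0 i hi, mul_zero, sub_zero, ← Int.cast_abs] at h1
    by_contra hne
    have h2 : (1 : ℤ) ≤ |q i| := Int.one_le_abs hne
    have h3 : (1 : ℝ) ≤ ((|q i| : ℤ) : ℝ) := by exact_mod_cast h2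
    linarith

end Pool.Agent.Lib.Helper34.PH
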