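import Pool.Agent.Lib.Helper34.PH9
import Pool.Agent.Lib.Helper34.PH11
import Pool.Agent.Lib.Helper34.PH12

/-!
# PH13: hulls of compact sets invariant under an abelian group with one invariant
-/

set_option autoImplicit false

namespace Pool.Agent.Lib.Helper34.PH

open MvPolynomial Metric Set Filter Topology NNReal

variable {n : ℕ} {K : Set (Fin n → ℂ)}

/-- a bounded holomorphic half plane with boundary in the hull. -/
theorem ph13_ray (x : Fin n → ℂ) (a : Fin n → ℝ)
    (h : ∀ η : ℝ, (fun i => Complex.exp ((a i : ℂ) * (η * Complex.I)) * x i) ∈ hull K)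
    (hneg : ∀ i, x i ≠ 0 → a i ≤ 0) (i₀ : Fin n)
    (hx₀ : x i₀ ≠ 0) (ha₀ : a i₀ < 0) : HasDisc (hull K) := by
  set Φ : ℂ → (Fin n → ℂ) := fun ζ i => Complex.exp ((a i : ℂ) * ζ) * x i with hΦdef
  have hΦ : Differentiable ℂ Φ := by
    rw [differentiable_pi]
    intro i
    fun_prop
  have hall : ∀ ζ : ℂ, 0 ≤ ζ.re → Φ ζ ∈ hull K := by
    refine ph2_halfplane Φ hΦ ‖x‖ ?_ h
    intro ζ hζ
    rw [pi_norm_le_iff_of_nonneg (norm_nonneg _)]
    intro i
    rw [hΦdef]
    simp only
    rw [norm_mul, Complex.norm_exp, Complex.re_ofReal_mul]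
    by_cases hi : x i = 0
    · rw [hi, norm_zero, mul_zero]
      exact norm_nonneg _
    · have h1 : Real.exp (a i * ζ.re) ≤ 1 := by
        rw [Real.exp_le_one_iff]
        exact mul_nonpos_of_nonpos_of_nonneg (hneg i hi) hζ
      calc Real.exp (a i * ζ.re) * ‖x i‖ ≤ 1 * ‖x i‖ :=
            mul_le_mul_of_nonneg_right h1 (norm_nonneg _)
        _ ≤ ‖x‖ := by rw [one_mul]; exact norm_le_pi_norm x i
  refine ph2_halfplane_disc Φ hΦ (fun ζ h0 _ => hall ζ h0) ?_
  refine ⟨1 / 3, 1 / 2, by norm_num, by norm_num, by norm_num, by norm_num, fun heq => ?_⟩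
  have h1 := congrFun heq i₀
  rw [hΦdef] at h1
  simp only at h1
  have h2 := mul_right_cancel₀ hx₀ h1
  rw [← Complex.ofReal_mul, ← Complex.ofReal_mul, ← Complex.ofReal_exp, ← Complex.ofReal_exp] at h2
  have h3 := Real.exp_injective (Complex.ofReal_injective h2)
  linarith

theorem ph13_ne {x : Fin n → ℂ} (hx : x ≠ 0) : ∃ i, x i ≠ 0 := by
  by_contra hcon
  push Not at hcon
  exact hx (funext hcon)

/-- the case of a torus of codimension one in the coordinate subspace that contains the hull. -/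
theorem ph13_core (hK : IsCompact K) (hno : ¬ HasDisc (hull K)) (M : Fin n → ℕ)
    (hinvM : PH9Inv M K) (hsupp : ∀ z ∈ hull K, z ≠ 0 → ∀ i, z i ≠ 0 ↔ M i ≠ 0)
    (j : Fin n) (hMj : M j ≠ 0) (x : Fin n → ℂ) (hx : x ∈ hull K) (hxK : x ∉ K) : False := by
  have hinvMH : PH9Inv M (hull K) := ph9_inv_hull hinvM
  have hsurj : ∀ z ∈ hull K, ∀ τ : ℂ, eval z (ph9Pi M) = Complex.exp τ →
      ∃ (v : PH9Idx M j → ℝ) (u : Fin n → ℂ), (∀ i, ‖u i‖ = 1) ∧ ∏ i, u i ^ M i = 1 ∧
        ph9Psi M j (fun k => (v k : ℂ)) τ = fun i => u i * z i := by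
    intro z hz τ hτ
    have hz0 : z ≠ 0 := by
      rintro rfl
      rw [ph9_eval] at hτ
      have h1 : ∏ i, (0 : Fin n → ℂ) i ^ M i = 0 := by
        refine Finset.prod_eq_zero (Finset.mem_univ j) ?_
        rw [Pi.zero_apply, zero_pow hMj]
      rw [h1] at hτ
      exact Complex.exp_ne_zero _ hτ.symm
    exact ph9_surj M j hMj z (fun i => hsupp z hz hz0 i) τ hτ
  let S : Slice K (ph9Pi M) (PH9Idx M j) :=
    { Ψ := ph9Psi M j
      C := 1
      diff := ph9_diff M j
      inv := ph9_inv M j hMj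
      shift := ph9_shift M j hMj hinvMH
      proper := ph9_proper M j hMj
      surj := fun z hz τ hτ => by
        obtain ⟨v, u, hu, hp, he⟩ := hsurj z hz τ hτ
        exact ⟨v, by rw [he]; exact hinvMH u hu hp z hz⟩ }
  apply hno
  refine ph8_main hK (ph9Pi M) S x hx fun w hw heq => ?_
  by_cases ht : eval x (ph9Pi M) = 0
  · -- both points are zero
    have hzero : ∀ z ∈ hull K, eval z (ph9Pi M) = 0 → z = 0 := by
      intro z hz h0
      by_contra hz0
      rw [ph9_eval] at h0
      obtain ⟨i, _, hi⟩ := Finset.prod_eq_zero_iff.1 h0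
      have hi' : z i = 0 ∧ M i ≠ 0 := by
        by_cases hMi : M i = 0
        · rw [hMi, pow_zero] at hi
          exact absurd hi one_ne_zero
        · exact ⟨pow_eq_zero_iff hMi |>.1 hi, hMi⟩
      exact ((hsupp z hz hz0 i).2 hi'.2) hi'.1
    apply hxK
    rw [hzero x hx ht, ← hzero w (ph1_subset hw) (heq.trans ht)]
    exact hw
  · have hτ : eval x (ph9Pi M) = Complex.exp (Complex.log (eval x (ph9Pi M))) :=
      (Complex.exp_log ht).symm
    obtain ⟨v, u, hu, hp, he⟩ := hsurj x hx _ hτ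
    obtain ⟨v', u', hu', hp', he'⟩ := hsurj w (ph1_subset hw) _ (heq.trans hτ)
    have hv : v = v' := by
      refine ph6_unique hK (ph9Pi M) S hno (Complex.log (eval x (ph9Pi M))) v v' ?_ ?_
      · change ph9Psi M j (fun k => (v k : ℂ)) _ ∈ hull K
        rw [he]
        exact hinvMH u hu hp x hx
      · change ph9Psi M j (fun k => (v' k : ℂ)) _ ∈ hull K
        rw [he']
        exact hinvMH u' hu' hp' w (ph1_subset hw)
    subst hv
    have h1 : (fun i => u i * x i) = fun i => u' i * w i := by rw [← he, ← he']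
    apply hxK
    have hu0 : ∀ i, u i ≠ 0 := fun i => norm_ne_zero_iff.1 (by rw [hu i]; exact one_ne_zero)
    have h2 : x = fun i => (u i)⁻¹ * u' i * w i := by
      funext i
      have h3 : u i * x i = u' i * w i := congrFun h1 i
      rw [mul_assoc, ← h3, ← mul_assoc, inv_mul_cancel₀ (hu0 i), one_mul]
    rw [h2]
    refine hinvM (fun i => (u i)⁻¹ * u' i) (fun i => ?_) ?_ w hw
    · rw [norm_mul, norm_inv, hu, hu', inv_one, one_mul]
    · have h4 : ∀ i, ((u i)⁻¹ * u' i) ^ M i = (u i ^ M i)⁻¹ * u' i ^ M i := by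
        intro i
        rw [mul_pow, inv_pow]
      rw [Finset.prod_congr rfl fun i _ => h4 i, Finset.prod_mul_distrib, Finset.prod_inv_distrib,
        hp, hp', inv_one, one_mul]

/-- the relations of a group of diagonal matrices. -/
def ph13Rel (G : Subgroup (Fin n → Circle)) : AddSubgroup (Fin n → ℤ) where
  carrier := {m | ∀ u ∈ G, ∏ i, u i ^ m i = 1}
  zero_mem' := fun u _ => by
    refine Finset.prod_eq_one fun i _ => ?_
    rw [Pi.zero_apply, zpow_zero]
  add_mem' := fun {a b} ha hb u hu => by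
    have h1 : ∀ i, u i ^ (a + b) i = u i ^ a i * u i ^ b i := fun i => by
      rw [Pi.add_apply, zpow_add]
    rw [Finset.prod_congr rfl fun i _ => h1 i, Finset.prod_mul_distrib, ha u hu, hb u hu, one_mul]
  neg_mem' := fun {a} ha u hu => by
    have h1 : ∀ i, u i ^ (-a) i = (u i ^ a i)⁻¹ := fun i => by rw [Pi.neg_apply, zpow_neg]
    rw [Finset.prod_congr rfl fun i _ => h1 i, Finset.prod_inv_distrib, ha u hu, inv_one]

theorem ph13_mem_rel {G : Subgroup (Fin n → Circle)} {m : Fin n → ℤ} :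
    m ∈ ph13Rel G ↔ ∀ u ∈ G, ∏ i, u i ^ m i = 1 := Iff.rfl

/-- a closed set invariant under `G` is invariant under the closure of `G`. -/
theorem ph13_closure {G : Set (Fin n → Circle)} {S : Set (Fin n → ℂ)} (hS : IsClosed S)
    (z : Fin n → ℂ) (h : ∀ u ∈ G, (fun i => (u i : ℂ) * z i) ∈ S) (u : Fin n → Circle)
    (hu : u ∈ closure G) : (fun i => (u i : ℂ) * z i) ∈ S := by
  have hc : Continuous fun u : Fin n → Circle => (fun i => (u i : ℂ) * z i : Fin n → ℂ) := by
    refine continuous_pi fun i => ?_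
    exact (continuous_subtype_val.comp (continuous_apply i)).mul continuous_const
  have h1 : closure G ⊆ (fun u : Fin n → Circle => (fun i => (u i : ℂ) * z i : Fin n → ℂ)) ⁻¹' S :=
    closure_minimal (fun v hv => h v hv) (hS.preimage hc)
  exact h1 hu

/-- every point of the hull has a positive relation on its support, if there is no disc. -/
theorem ph13_relation (G : Subgroup (Fin n → Circle))
    (hinvH : ∀ u ∈ G, ∀ z ∈ hull K, (fun i => (u i : ℂ) * z i) ∈ hull K) (hno : ¬ HasDisc (hull K))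
    (x : Fin n → ℂ) (hx : x ∈ hull K) :
    ∃ m ∈ ph13Rel G, (∀ i, x i ≠ 0 → 0 < m i) ∧ ∀ i, x i = 0 → m i = 0 := by
  have hst : ∀ a : Fin n → ℝ, (∀ m ∈ ph13Rel G, ∑ i, a i * (m i : ℝ) = 0) →
      (∀ i ∈ {i | x i ≠ 0}, a i ≤ 0) → ∀ i ∈ {i | x i ≠ 0}, a i = 0 := by
    intro a ha hneg i hi
    by_contra hne
    apply hno
    refine ph13_ray x a ?_ (fun k hk => hneg k hk) i hi (lt_of_le_of_ne (hneg i hi) hne)
    intro η
    have hmem : (fun i => Circle.exp (a i * η)) ∈ closure (G : Set (Fin n → Circle)) := by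
      refine ph11_duality G _ fun m hm => ?_
      have h3 : ∀ i, Circle.exp (a i * η) ^ m i = Circle.exp (a i * (m i : ℝ) * η) := by
        intro i
        rw [← Circle.exp_zsmul, zsmul_eq_mul]
        congr 1
        ring
      rw [Finset.prod_congr rfl fun i _ => h3 i]
      have h4 := ha m hm
      have h5 : ∏ i, Circle.exp (a i * (m i : ℝ) * η) = Circle.exp (∑ i, a i * (m i : ℝ) * η) := by
        apply Circle.ext
        have h6 : ((∏ i, Circle.exp (a i * (m i : ℝ) * η) : Circle) : ℂ) =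
            Circle.coeHom (∏ i, Circle.exp (a i * (m i : ℝ) * η)) := rfl
        rw [h6, map_prod, Circle.coe_exp, Complex.ofReal_sum, Finset.sum_mul, Complex.exp_sum]
        rfl
      rw [h5, ← Finset.sum_mul, h4, zero_mul, Circle.exp_zero]
    have h7 := ph13_closure ph1_isClosed x (fun u hu => hinvH u hu x hx) _ hmem
    have h8 : (fun i => ((Circle.exp (a i * η) : Circle) : ℂ) * x i) =
        fun i => Complex.exp ((a i : ℂ) * (η * Complex.I)) * x i := by
      funext i
      rw [Circle.coe_exp]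
      congr 2
      push_cast
      ring
    rw [← h8]
    exact h7
  obtain ⟨m, hm, h1, h2⟩ := ph12_stiemke (ph13Rel G) {i | x i ≠ 0} hst
  exact ⟨m, hm, fun i hi => h1 i hi, fun i hi => h2 i (fun h => h hi)⟩

end Pool.Agent.Lib.Helper34.PH
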