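import Pool.Agent.Lib.Helper34.PH1

/-!
# PH2: half planes and strips with boundary in the hull
-/

set_option autoImplicit false

namespace Pool.Agent.Lib.Helper34.PH

open MvPolynomial Metric Filter Asymptotics Bornology Set

variable {n : ℕ} {K : Set (Fin n → ℂ)}

theorem ph2_diff {s : Set ℂ} {Φ : ℂ → (Fin n → ℂ)} (hΦ : DifferentiableOn ℂ Φ s)
    (P : MvPolynomial (Fin n) ℂ) : DifferentiableOn ℂ (fun ζ => eval (Φ ζ) P) s := by
  induction P using MvPolynomial.induction_on with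
  | C a => simp only [eval_C]; exact differentiableOn_const a
  | add p q hp hq => simp only [eval_add]; exact hp.add hq
  | mul_X p i hp =>
    simp only [eval_mul, eval_X]
    exact hp.mul (differentiableOn_pi.1 hΦ i)

theorem ph2_bound (P : MvPolynomial (Fin n) ℂ) (R : ℝ) :
    ∃ B : ℝ, ∀ z : Fin n → ℂ, ‖z‖ ≤ R → ‖eval z P‖ ≤ B := by
  obtain ⟨B, hB⟩ := (isCompact_closedBall (0 : Fin n → ℂ) R).exists_bound_of_continuousOn
    (ph1_continuous_eval P).continuousOn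
  exact ⟨B, fun z hz => hB z (mem_closedBall_zero_iff.2 hz)⟩

theorem ph2_halfplane (Φ : ℂ → (Fin n → ℂ)) (hΦ : Differentiable ℂ Φ) (R : ℝ)
    (hb : ∀ ζ : ℂ, 0 ≤ ζ.re → ‖Φ ζ‖ ≤ R) (hI : ∀ η : ℝ, Φ (η * Complex.I) ∈ hull K) (ζ : ℂ)
    (hζ : 0 ≤ ζ.re) : Φ ζ ∈ hull K := by
  refine ph1_hull_hull fun P c hc => ?_
  obtain ⟨B, hB⟩ := ph2_bound P R
  have hd : Differentiable ℂ fun ζ => eval (Φ ζ) P := by
    rw [← differentiableOn_univ]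
    exact ph2_diff hΦ.differentiableOn P
  refine PhragmenLindelof.right_half_plane_of_bounded_on_real (f := fun ζ => eval (Φ ζ) P)
    hd.diffContOnCl ⟨1, by norm_num, 0, ?_⟩ ?_ (fun x => hc _ (hI x)) hζ
  · refine IsBigO.of_bound B ?_
    refine (eventually_inf_principal.2 (Eventually.of_forall fun z hz => ?_))
    have h1 : ‖eval (Φ z) P‖ ≤ B := hB _ (hb z (le_of_lt hz))
    rw [zero_mul, Real.exp_zero, norm_one, mul_one]
    exact h1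
  · refine ⟨B, ?_⟩
    rw [eventually_map]
    filter_upwards [eventually_ge_atTop (0 : ℝ)] with x hx
    exact hB _ (hb _ (by rw [Complex.ofReal_re]; exact hx))

theorem ph2_strip (Φ : ℂ → (Fin n → ℂ)) (hΦ : Differentiable ℂ Φ) (R : ℝ)
    (hb : ∀ ζ : ℂ, 0 ≤ ζ.re → ζ.re ≤ 1 → ‖Φ ζ‖ ≤ R) (h0 : ∀ ζ : ℂ, ζ.re = 0 → Φ ζ ∈ hull K)
    (h1 : ∀ ζ : ℂ, ζ.re = 1 → Φ ζ ∈ hull K) (ζ : ℂ)
    (hζ : 0 ≤ ζ.re) (hζ' : ζ.re ≤ 1) : Φ ζ ∈ hull K := by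
  refine ph1_hull_hull fun P c hc => ?_
  obtain ⟨B, hB⟩ := ph2_bound P R
  have hd : Differentiable ℂ fun ζ => eval (Φ ζ) P := by
    rw [← differentiableOn_univ]
    exact ph2_diff hΦ.differentiableOn P
  refine PhragmenLindelof.vertical_strip (f := fun ζ => eval (Φ ζ) P) (a := 0) (b := 1)
    hd.diffContOnCl ⟨0, by have := Real.pi_pos; simpa using this, 0, ?_⟩ (fun z hz => hc _ (h0 z hz))
    (fun z hz => hc _ (h1 z hz)) hζ hζ'
  refine IsBigO.of_bound B ?_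
  refine (eventually_inf_principal.2 (Eventually.of_forall fun z hz => ?_))
  have h2 : ‖eval (Φ z) P‖ ≤ B := hB _ (hb z (le_of_lt hz.1) (le_of_lt hz.2))
  rw [zero_mul, Real.exp_zero, norm_one, mul_one]
  exact h2

/-- a disc in the half plane. -/
theorem ph2_halfplane_disc {S : Set (Fin n → ℂ)} (Φ : ℂ → (Fin n → ℂ)) (hΦ : Differentiable ℂ Φ)
    (hS : ∀ ζ : ℂ, 0 ≤ ζ.re → ζ.re ≤ 1 → Φ ζ ∈ S)
    (hne : ∃ a : ℝ, ∃ b : ℝ, 0 < a ∧ a < 1 ∧ 0 < b ∧ b < 1 ∧ Φ a ≠ Φ b) : HasDisc S := by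
  have h1 : ∀ ζ ∈ ball ((1 / 2 : ℝ) : ℂ) (1 / 2), 0 ≤ ζ.re ∧ ζ.re ≤ 1 := by
    intro ζ hζ
    rw [mem_ball, dist_eq_norm] at hζ
    have h2 := (Complex.abs_re_le_norm (ζ - ((1 / 2 : ℝ) : ℂ))).trans hζ.le
    rw [Complex.sub_re, Complex.ofReal_re, abs_le] at h2
    constructor <;> linarith [h2.1, h2.2]
  refine ph1_disc Φ ((1 / 2 : ℝ) : ℂ) (1 / 2) (by norm_num) hΦ.differentiableOn ?_
    (fun ζ hζ => hS ζ (h1 ζ hζ).1 (h1 ζ hζ).2)
  obtain ⟨a, b, ha, ha', hb, hb', hab⟩ := hne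
  have h3 : ∀ t : ℝ, 0 < t → t < 1 → (t : ℂ) ∈ ball ((1 / 2 : ℝ) : ℂ) (1 / 2) := by
    intro t ht ht'
    rw [mem_ball, dist_eq_norm, ← Complex.ofReal_sub, Complex.norm_real, Real.norm_eq_abs, abs_lt]
    constructor <;> linarith
  exact ⟨a, h3 a ha ha', b, h3 b hb hb', hab⟩

end Pool.Agent.Lib.Helper34.PH
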