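import Pool.Agent.Lib.Helper34.PH1

/-!
# PH3: the Gelfand step
If `y ↦ π(y) - t` has no zero on the hull, it is invertible in the uniform algebra `P(K)`, so it is
at least `dist (t, π(K))` on the hull.
-/

set_option autoImplicit false

namespace Pool.Agent.Lib.Helper34.PH

open MvPolynomial Metric Set

variable {n : ℕ} {K : Set (Fin n → ℂ)}

/-- coordinate functions. -/
noncomputable def ph3Coord (K : Set (Fin n → ℂ)) (i : Fin n) : C(K, ℂ) :=
  ⟨fun w => w.1 i, (continuous_apply i).comp continuous_subtype_val⟩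

/-- polynomials as continuous functions on `K`. -/
noncomputable def ph3Hom (K : Set (Fin n → ℂ)) : MvPolynomial (Fin n) ℂ →ₐ[ℂ] C(K, ℂ) :=
  aeval (ph3Coord K)

theorem ph3_hom_apply (P : MvPolynomial (Fin n) ℂ) (w : K) : ph3Hom K P w = eval w.1 P := by
  induction P using MvPolynomial.induction_on with
  | C a =>
    rw [ph3Hom, aeval_C, eval_C]
    rfl
  | add p q hp hq => rw [map_add, ContinuousMap.add_apply, hp, hq, eval_add]
  | mul_X p i hp =>
    rw [map_mul, ContinuousMap.mul_apply, hp, eval_mul, eval_X, ph3Hom, aeval_X]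
    rfl

theorem ph3_nonempty {x : Fin n → ℂ} (hx : x ∈ hull K) : K.Nonempty := by
  by_contra h
  rw [not_nonempty_iff_eq_empty] at h
  have h1 := hx 0 (-1) (fun w hw => by rw [h] at hw; exact hw.elim)
  have h2 := norm_nonneg (eval x (0 : MvPolynomial (Fin n) ℂ))
  linarith

/-- the inverse of a polynomial without zeros on the hull. -/
theorem ph3_inverse (hK : IsCompact K) (hne : K.Nonempty) (q : MvPolynomial (Fin n) ℂ)
    (hq : ∀ y ∈ hull K, eval y q ≠ 0) : ∃ b : C(K, ℂ), b ∈ closure (Set.range (ph3Hom K)) ∧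
      ∀ w : K, eval w.1 q * b w = 1 := by
  haveI : CompactSpace K := isCompact_iff_compactSpace.1 hK
  haveI : Nonempty K := hne.to_subtype
  let A : Subalgebra ℂ C(K, ℂ) := (ph3Hom K).range.topologicalClosure
  haveI : CompleteSpace A := (Subalgebra.isClosed_topologicalClosure _).completeSpace_coe
  haveI : NormOneClass A := ⟨by
    change ‖((1 : A) : C(K, ℂ))‖ = 1
    rw [OneMemClass.coe_one, norm_one]⟩
  have hmem : ∀ P : MvPolynomial (Fin n) ℂ, ph3Hom K P ∈ A := fun P =>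
    Subalgebra.le_topologicalClosure _ ⟨P, rfl⟩
  let φ : MvPolynomial (Fin n) ℂ →ₐ[ℂ] A := (ph3Hom K).codRestrict A hmem
  have hu : IsUnit (φ q) := by
    by_contra hnu
    obtain ⟨χ, hχ⟩ := WeakDual.CharacterSpace.exists_apply_eq_zero hnu
    let ψ : MvPolynomial (Fin n) ℂ →ₐ[ℂ] ℂ := (WeakDual.CharacterSpace.toAlgHom χ).comp φ
    let y : Fin n → ℂ := fun i => ψ (X i)
    have hψ : ∀ P : MvPolynomial (Fin n) ℂ, ψ P = eval y P := by
      intro P
      have h1 : ψ = aeval y := by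
        apply MvPolynomial.algHom_ext
        intro i
        rw [aeval_X]
      rw [h1]
      rfl
    have hy : y ∈ hull K := by
      intro P c hc
      rw [← hψ]
      have h2 : ‖ψ P‖ ≤ ‖φ P‖ := AlgHom.norm_apply_le_self (WeakDual.CharacterSpace.toAlgHom χ) (φ P)
      refine h2.trans ?_
      change ‖ph3Hom K P‖ ≤ c
      rw [ContinuousMap.norm_le_of_nonempty]
      intro w
      rw [ph3_hom_apply]
      exact hc _ w.2
    apply hq y hy
    rw [← hψ]
    exact hχ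
  obtain ⟨b, hb⟩ := hu.exists_right_inv
  refine ⟨b.1, ?_, fun w => ?_⟩
  · have h3 : (b.1 : C(K, ℂ)) ∈ A := b.2
    rw [← SetLike.mem_coe, Subalgebra.topologicalClosure_coe] at h3
    exact h3
  · have h4 := congrArg (fun a : A => (a : C(K, ℂ)) w) hb
    have h5 : ((φ q * b : A) : C(K, ℂ)) w = eval w.1 q * b.1 w := by
      change (ph3Hom K q) w * b.1 w = _
      rw [ph3_hom_apply]
    rw [← h5]
    exact h4

theorem ph3_fibre (hK : IsCompact K) (π : MvPolynomial (Fin n) ℂ) (t : ℂ) (δ : ℝ) (hδ : 0 < δ)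
    (h : ∀ w ∈ K, δ ≤ ‖eval w π - t‖) (x : Fin n → ℂ) (hx : x ∈ hull K)
    (hxt : ‖eval x π - t‖ < δ) : ∃ y ∈ hull K, eval y π = t := by
  by_contra hcon
  push Not at hcon
  have hne := ph3_nonempty hx
  have hev : ∀ z : Fin n → ℂ, eval z (π - C t) = eval z π - t := by
    intro z
    rw [eval_sub, eval_C]
  obtain ⟨b, hb, hb1⟩ := ph3_inverse hK hne (π - C t) (fun y hy h0 => hcon y hy (by
    rw [hev] at h0
    exact sub_eq_zero.1 h0))
  haveI : CompactSpace K := isCompact_iff_compactSpace.1 hK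
  haveI : Nonempty K := hne.to_subtype
  obtain ⟨M, hM⟩ := hK.exists_bound_of_continuousOn (ph1_continuous_eval (π - C t)).continuousOn
  have hM0 : 0 ≤ M := by
    obtain ⟨w, hw⟩ := hne
    exact (norm_nonneg _).trans (hM w hw)
  have hbn : ∀ w : K, ‖b w‖ ≤ δ⁻¹ := by
    intro w
    have h1 := congrArg norm (hb1 w)
    rw [norm_mul, norm_one, hev] at h1
    have h2 := h w.1 w.2
    rw [le_inv_comm₀ (by
      by_contra h3
      have h4 : ‖b w‖ = 0 := le_antisymm (not_lt.1 h3) (norm_nonneg _)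
      rw [h4, mul_zero] at h1
      exact zero_ne_one h1) hδ]
    have h5 : 0 < ‖b w‖ := by
      by_contra h3
      have h4 : ‖b w‖ = 0 := le_antisymm (not_lt.1 h3) (norm_nonneg _)
      rw [h4, mul_zero] at h1
      exact zero_ne_one h1
    rw [← one_div, le_div_iff₀ h5]
    calc δ * ‖b w‖ ≤ ‖eval w.1 π - t‖ * ‖b w‖ := mul_le_mul_of_nonneg_right h2 h5.le
      _ = 1 := h1
  set ρ : ℝ := ‖eval x π - t‖ with hρ
  have hρ0 : 0 ≤ ρ := norm_nonneg _
  -- choose `η`
  have hgap : 0 < 1 - δ⁻¹ * ρ := by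
    have : δ⁻¹ * ρ < δ⁻¹ * δ := mul_lt_mul_of_pos_left hxt (inv_pos.2 hδ)
    rw [inv_mul_cancel₀ hδ.ne'] at this
    linarith
  obtain ⟨η, hη, hη2⟩ : ∃ η : ℝ, 0 < η ∧ η * (ρ + M) < 1 - δ⁻¹ * ρ := by
    refine ⟨(1 - δ⁻¹ * ρ) / (2 * (ρ + M + 1)), by positivity, ?_⟩
    rw [div_mul_eq_mul_div, div_lt_iff₀ (by positivity)]
    nlinarith
  rw [Metric.mem_closure_iff] at hb
  obtain ⟨f, ⟨P, rfl⟩, hf⟩ := hb η hη
  have hfw : ∀ w : K, ‖b w - eval w.1 P‖ ≤ η := by
    intro w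
    rw [← ph3_hom_apply]
    have h1 := ContinuousMap.norm_coe_le_norm (b - ph3Hom K P) w
    rw [dist_eq_norm] at hf
    rw [ContinuousMap.sub_apply] at h1
    exact h1.trans hf.le
  have h6 : ‖eval x P‖ ≤ δ⁻¹ + η := by
    refine hx P _ fun w hw => ?_
    have h7 := hfw ⟨w, hw⟩
    have h8 := hbn ⟨w, hw⟩
    calc ‖eval w P‖ = ‖b ⟨w, hw⟩ - (b ⟨w, hw⟩ - eval w P)‖ := by rw [sub_sub_cancel]
      _ ≤ ‖b ⟨w, hw⟩‖ + ‖b ⟨w, hw⟩ - eval w P‖ := norm_sub_le _ _
      _ ≤ δ⁻¹ + η := add_le_add h8 h7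
  have h9 : ‖eval x (P * (π - C t) - 1)‖ ≤ η * M := by
    refine hx _ _ fun w hw => ?_
    rw [eval_sub, eval_mul, map_one, ← hb1 ⟨w, hw⟩]
    have h10 : eval w P * eval w (π - C t) - eval w (π - C t) * b ⟨w, hw⟩ =
        -((b ⟨w, hw⟩ - eval w P) * eval w (π - C t)) := by ring
    rw [h10, norm_neg, norm_mul]
    exact mul_le_mul (hfw ⟨w, hw⟩) (hM w hw) (norm_nonneg _) hη.le
  rw [eval_sub, eval_mul, map_one, hev] at h9
  have h11 : (1 : ℝ) ≤ ‖eval x P * (eval x π - t)‖ + ‖eval x P * (eval x π - t) - 1‖ := by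
    calc (1 : ℝ) = ‖eval x P * (eval x π - t) - (eval x P * (eval x π - t) - 1)‖ := by
          rw [sub_sub_cancel, norm_one]
      _ ≤ _ := norm_sub_le _ _
  rw [norm_mul, ← hρ] at h11
  have h12 : ‖eval x P‖ * ρ ≤ (δ⁻¹ + η) * ρ := mul_le_mul_of_nonneg_right h6 hρ0
  nlinarith

end Pool.Agent.Lib.Helper34.PH
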