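import Mathlib

/-!
# PH4: real parts of polynomials are dense on the circle
-/

set_option autoImplicit false

namespace Pool.Agent.Lib.Helper34.PH

open Metric Set Submodule Polynomial

theorem ph4_mem (f : C(AddCircle (2 * Real.pi), ℂ))
    (hf : f ∈ span ℂ (range <| @fourier (2 * Real.pi))) (c : ℂ) :
    ∃ p : ℂ[X], ∀ x : AddCircle (2 * Real.pi),
      (c * f x).re = (p.eval ((AddCircle.toCircle x : Circle) : ℂ)).re := by
  induction hf using Submodule.span_induction generalizing c with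
  | mem g hg =>
    obtain ⟨k, rfl⟩ := hg
    rcases Int.le_total 0 k with hk | hk
    · obtain ⟨m, rfl⟩ := Int.eq_ofNat_of_zero_le hk
      refine ⟨C c * X ^ m, fun x => ?_⟩
      rw [fourier_apply, AddCircle.toCircle_zsmul, eval_mul, eval_C, eval_pow, eval_X]
      rfl
    · obtain ⟨m, hm⟩ := Int.eq_ofNat_of_zero_le (neg_nonneg.2 hk)
      have hk' : k = -(m : ℤ) := by omega
      subst hk'
      refine ⟨C (starRingEnd ℂ c) * X ^ m, fun x => ?_⟩
      rw [fourier_neg, fourier_apply, AddCircle.toCircle_zsmul, eval_mul, eval_C, eval_pow, eval_X]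
      have h1 : ((starRingEnd ℂ) c * ((AddCircle.toCircle x : Circle) : ℂ) ^ m) =
          (starRingEnd ℂ) (c * (starRingEnd ℂ) (((AddCircle.toCircle x : Circle) : ℂ) ^ m)) := by
        rw [map_mul, Complex.conj_conj]
      rw [h1, Complex.conj_re]
      rfl
  | zero =>
    refine ⟨0, fun x => ?_⟩
    rw [ContinuousMap.zero_apply, mul_zero, eval_zero]
  | add f g _ _ hf hg =>
    obtain ⟨p, hp⟩ := hf c
    obtain ⟨q, hq⟩ := hg c
    refine ⟨p + q, fun x => ?_⟩
    rw [ContinuousMap.add_apply, mul_add, Complex.add_re, hp, hq, eval_add, Complex.add_re]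
  | smul a f _ hf =>
    obtain ⟨p, hp⟩ := hf (c * a)
    refine ⟨p, fun x => ?_⟩
    rw [← hp, ContinuousMap.smul_apply, smul_eq_mul, mul_assoc]

theorem ph4_approx (u : ℂ → ℝ) (hu : ContinuousOn u (sphere (0 : ℂ) 1)) (ε : ℝ) (hε : 0 < ε) :
    ∃ p : ℂ[X], ∀ s : ℂ, ‖s‖ = 1 → |(p.eval s).re - u s| < ε := by
  haveI : Fact (0 < 2 * Real.pi) := ⟨Real.two_pi_pos⟩
  have hc : Continuous fun x : AddCircle (2 * Real.pi) =>
      ((u ((AddCircle.toCircle x : Circle) : ℂ) : ℝ) : ℂ) := by
    refine Complex.continuous_ofReal.comp ?_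
    refine hu.comp_continuous (continuous_subtype_val.comp AddCircle.continuous_toCircle) ?_
    intro x
    rw [mem_sphere_zero_iff_norm]
    exact Circle.norm_coe _
  let g : C(AddCircle (2 * Real.pi), ℂ) := ⟨_, hc⟩
  have hg : g ∈ (span ℂ (range <| @fourier (2 * Real.pi))).topologicalClosure := by
    rw [span_fourier_closure_eq_top]
    trivial
  rw [← SetLike.mem_coe, Submodule.topologicalClosure_coe, Metric.mem_closure_iff] at hg
  obtain ⟨f, hf, hfg⟩ := hg ε hε
  obtain ⟨p, hp⟩ := ph4_mem f hf 1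
  refine ⟨p, fun s hs => ?_⟩
  obtain ⟨x, hx⟩ : ∃ x : AddCircle (2 * Real.pi), ((AddCircle.toCircle x : Circle) : ℂ) = s := by
    refine ⟨((Complex.arg s : ℝ) : AddCircle (2 * Real.pi)), ?_⟩
    rw [AddCircle.toCircle_apply_mk, Circle.coe_exp]
    have h1 : (2 * Real.pi / (2 * Real.pi) * Complex.arg s : ℝ) = Complex.arg s := by
      rw [div_self Real.two_pi_pos.ne', one_mul]
    rw [h1]
    have h2 := Complex.norm_mul_exp_arg_mul_I s
    rwa [hs, Complex.ofReal_one, one_mul] at h2
  subst hx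
  rw [← hp, one_mul]
  have h3 := ContinuousMap.norm_coe_le_norm (g - f) x
  rw [dist_eq_norm] at hfg
  rw [ContinuousMap.sub_apply] at h3
  have h4 : |(f x).re - u ((AddCircle.toCircle x : Circle) : ℂ)| ≤ ‖g x - f x‖ := by
    have h5 := Complex.abs_re_le_norm (f x - g x)
    rw [Complex.sub_re, norm_sub_rev] at h5
    exact h5
  exact h4.trans_lt (h3.trans_lt hfg)

end Pool.Agent.Lib.Helper34.PH
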