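import Pool.Agent.Lib.Helper34.PH4

/-!
# PH5: a holomorphic function with prescribed real part on the circle (as a limit of polynomials)
-/

set_option autoImplicit false

namespace Pool.Agent.Lib.Helper34.PH

open Metric Set Polynomial Filter Topology

/-- maximum principle for the real part. -/
theorem ph5_re_le (h : ℂ[X]) (δ : ℝ) (hδ : ∀ s : ℂ, ‖s‖ = 1 → (h.eval s).re ≤ δ) (z : ℂ)
    (hz : ‖z‖ ≤ 1) : (h.eval z).re ≤ δ := by
  have hd : Differentiable ℂ fun z => Complex.exp (h.eval z) := h.differentiable.cexp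
  have h1 : ‖Complex.exp (h.eval z)‖ ≤ Real.exp δ := by
    refine Complex.norm_le_of_forall_mem_frontier_norm_le (U := ball (0 : ℂ) 1) isBounded_ball
      hd.diffContOnCl ?_ ?_
    · intro s hs
      rw [frontier_ball (0 : ℂ) one_ne_zero, mem_sphere_zero_iff_norm] at hs
      rw [Complex.norm_exp]
      exact Real.exp_le_exp.2 (hδ s hs)
    · rw [closure_ball (0 : ℂ) one_ne_zero, mem_closedBall_zero_iff]
      exact hz
  rw [Complex.norm_exp] at h1
  exact Real.exp_le_exp.1 h1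

theorem ph5_small (h : ℂ[X]) (δ : ℝ) (hδ0 : 0 < δ) (hδ : ∀ s : ℂ, ‖s‖ = 1 → |(h.eval s).re| ≤ δ)
    (h0 : (h.eval 0).im = 0) (z : ℂ) (hz : ‖z‖ < 1 / 2) : ‖h.eval z‖ ≤ 5 * δ := by
  have h1 : ∀ w : ℂ, ‖w‖ ≤ 1 → |(h.eval w).re| ≤ δ := by
    intro w hw
    rw [abs_le]
    constructor
    · have h2 := ph5_re_le (-h) δ (fun s hs => by
        rw [eval_neg, Complex.neg_re]
        have := (abs_le.1 (hδ s hs)).1
        linarith) w hw
      rw [eval_neg, Complex.neg_re] at h2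
      linarith
    · exact ph5_re_le h δ (fun s hs => (abs_le.1 (hδ s hs)).2) w hw
  have hz1 : z ∈ ball (0 : ℂ) 1 := by
    rw [mem_ball_zero_iff]
    linarith
  have h3 := Complex.borelCaratheodory (f := fun z => h.eval z) (R := 1) hδ0
    h.differentiable.differentiableOn
    (fun w hw => (abs_le.1 (h1 w (le_of_lt (mem_ball_zero_iff.1 hw)))).2) one_pos hz1
  have h4 : ‖h.eval 0‖ ≤ δ := by
    have h5 : h.eval 0 = (((h.eval 0).re : ℝ) : ℂ) := by
      apply Complex.ext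
      · rw [Complex.ofReal_re]
      · rw [Complex.ofReal_im, h0]
    rw [h5, Complex.norm_real, Real.norm_eq_abs]
    exact h1 0 (by rw [norm_zero]; exact zero_le_one)
  have hz0 : 0 ≤ ‖z‖ := norm_nonneg z
  have h6 : 2 * δ * ‖z‖ / (1 - ‖z‖) ≤ 2 * δ := by
    rw [div_le_iff₀ (by linarith)]
    nlinarith
  have h7 : ‖h.eval 0‖ * (1 + ‖z‖) / (1 - ‖z‖) ≤ 3 * δ := by
    rw [div_le_iff₀ (by linarith)]
    have h8 : ‖h.eval 0‖ * (1 + ‖z‖) ≤ δ * (1 + ‖z‖) := mul_le_mul_of_nonneg_right h4 (by linarith)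
    nlinarith
  calc ‖h.eval z‖ ≤ _ := h3
    _ ≤ 2 * δ + 3 * δ := add_le_add h6 h7
    _ = 5 * δ := by ring

theorem ph5_seq (u : ℂ → ℝ) (hu : ContinuousOn u (sphere (0 : ℂ) 1)) :
    ∃ p : ℕ → ℂ[X], (∀ (k : ℕ) (s : ℂ), ‖s‖ = 1 → |((p k).eval s).re - u s| < 1 / ((k : ℝ) + 1)) ∧
      ∃ g : ℂ → ℂ, DifferentiableOn ℂ g (ball 0 (1 / 2)) ∧
        ∀ z ∈ ball (0 : ℂ) (1 / 2), Tendsto (fun k => (p k).eval z) atTop (𝓝 (g z)) := by
  have hpos : ∀ k : ℕ, (0 : ℝ) < 1 / ((k : ℝ) + 1) := fun k => by positivity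
  choose q hq using fun k : ℕ => ph4_approx u hu (1 / ((k : ℝ) + 1)) (hpos k)
  let p : ℕ → ℂ[X] := fun k => q k - C ((((q k).eval 0).im : ℂ) * Complex.I)
  have hpe : ∀ (k : ℕ) (z : ℂ), (p k).eval z = (q k).eval z - (((q k).eval 0).im : ℂ) * Complex.I := by
    intro k z
    change (q k - C _).eval z = _
    rw [eval_sub, eval_C]
  have hpre : ∀ (k : ℕ) (z : ℂ), ((p k).eval z).re = ((q k).eval z).re := by
    intro k z
    rw [hpe, Complex.sub_re, Complex.mul_re, Complex.ofReal_re, Complex.I_re, Complex.ofReal_im,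
      Complex.I_im]
    ring
  have hpim : ∀ k : ℕ, ((p k).eval 0).im = 0 := by
    intro k
    rw [hpe, Complex.sub_im, Complex.mul_im, Complex.ofReal_re, Complex.I_re, Complex.ofReal_im,
      Complex.I_im]
    ring
  have hp1 : ∀ (k : ℕ) (s : ℂ), ‖s‖ = 1 → |((p k).eval s).re - u s| < 1 / ((k : ℝ) + 1) := by
    intro k s hs
    rw [hpre]
    exact hq k s hs
  have hkl : ∀ (k l : ℕ) (z : ℂ), z ∈ ball (0 : ℂ) (1 / 2) →
      ‖(p k).eval z - (p l).eval z‖ ≤ 5 * (1 / ((k : ℝ) + 1) + 1 / ((l : ℝ) + 1)) := by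
    intro k l z hz
    have h1 := ph5_small (p k - p l) (1 / ((k : ℝ) + 1) + 1 / ((l : ℝ) + 1))
      (add_pos (hpos k) (hpos l)) (fun s hs => by
        rw [eval_sub, Complex.sub_re]
        have h2 := abs_lt.1 (hp1 k s hs)
        have h3 := abs_lt.1 (hp1 l s hs)
        rw [abs_le]
        constructor <;> linarith [h2.1, h2.2, h3.1, h3.2])
      (by rw [eval_sub, Complex.sub_im, hpim, hpim, sub_zero]) z (mem_ball_zero_iff.1 hz)
    rw [eval_sub] at h1
    exact h1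
  have htend : Tendsto (fun k : ℕ => 5 * (1 / ((k : ℝ) + 1) + 1 / ((k : ℝ) + 1))) atTop (𝓝 0) := by
    have h1 := tendsto_one_div_add_atTop_nhds_zero_nat (𝕜 := ℝ)
    have h2 := (h1.add h1).const_mul 5
    simpa using h2
  have hcauchy : UniformCauchySeqOn (fun k z => (p k).eval z) atTop (ball (0 : ℂ) (1 / 2)) := by
    rw [Metric.uniformCauchySeqOn_iff]
    intro ε hε
    obtain ⟨N, hN⟩ := exists_nat_one_div_lt (show (0 : ℝ) < ε / 10 by positivity)
    refine ⟨N, fun k hk l hl z hz => ?_⟩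
    rw [dist_eq_norm]
    have h1 : ∀ m : ℕ, N ≤ m → 1 / ((m : ℝ) + 1) ≤ 1 / ((N : ℝ) + 1) := by
      intro m hm
      apply one_div_le_one_div_of_le (by positivity)
      have : (N : ℝ) ≤ m := Nat.cast_le.2 hm
      linarith
    have h2 := hkl k l z hz
    have h3 := h1 k hk
    have h4 := h1 l hl
    linarith
  have hlim : ∀ z : ℂ, ∃ a : ℂ, z ∈ ball (0 : ℂ) (1 / 2) →
      Tendsto (fun k => (p k).eval z) atTop (𝓝 a) := by
    intro z
    by_cases hz : z ∈ ball (0 : ℂ) (1 / 2)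
    · obtain ⟨a, ha⟩ := cauchySeq_tendsto_of_complete (hcauchy.cauchySeq hz)
      exact ⟨a, fun _ => ha⟩
    · exact ⟨0, fun h => absurd h hz⟩
  choose g hg using hlim
  refine ⟨p, hp1, g, ?_, fun z hz => hg z hz⟩
  have hunif : TendstoUniformlyOn (fun k z => (p k).eval z) g atTop (ball (0 : ℂ) (1 / 2)) :=
    hcauchy.tendstoUniformlyOn_of_tendsto fun z hz => hg z hz
  exact hunif.tendstoLocallyUniformlyOn.differentiableOn
    (Eventually.of_forall fun k => (p k).differentiable.differentiableOn) isOpen_ball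

end Pool.Agent.Lib.Helper34.PH
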