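import Pool.Agent.Lib.Helper34.PH2

/-!
# PH6: slices; two points of the hull on one slice give a strip
-/

set_option autoImplicit false

namespace Pool.Agent.Lib.Helper34.PH

open MvPolynomial Metric Set Filter Topology NNReal

variable {n : ℕ} {K : Set (Fin n → ℂ)}

/-- A holomorphic slice through the fibres of `π`: imaginary shifts of the parameter `v` act
through maps that preserve the hull of `K`. -/
structure Slice (K : Set (Fin n → ℂ)) (π : MvPolynomial (Fin n) ℂ) (ι : Type) [Fintype ι] where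
  /-- the slice map -/
  Ψ : (ι → ℂ) → ℂ → (Fin n → ℂ)
  /-- Lipschitz constant of the shifts -/
  C : ℝ≥0
  diff : Differentiable ℂ fun q : (ι → ℂ) × ℂ => Ψ q.1 q.2
  inv : ∀ v τ, eval (Ψ v τ) π = Complex.exp τ
  shift : ∀ η : ι → ℝ, ∃ g : (Fin n → ℂ) → (Fin n → ℂ), LipschitzWith C g ∧
    MapsTo g (hull K) (hull K) ∧ ∀ (v : ι → ℂ) (τ : ℂ),
      Ψ (fun i => v i + (η i : ℂ) * Complex.I) τ = g (Ψ v τ)
  proper : ∀ R : ℝ, ∃ B : ℝ, ∀ (v : ι → ℝ) (τ : ℂ), |τ.re| ≤ R →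
    ‖Ψ (fun i => (v i : ℂ)) τ‖ ≤ R → ∀ i, |v i| ≤ B
  surj : ∀ z ∈ hull K, ∀ τ : ℂ, eval z π = Complex.exp τ →
    ∃ v : ι → ℝ, Ψ (fun i => (v i : ℂ)) τ ∈ hull K

theorem ph6_const (Φ : ℂ → (Fin n → ℂ)) (hΦ : Differentiable ℂ Φ)
    (h : ∀ a : ℝ, ∀ b : ℝ, 0 < a → a < 1 → 0 < b → b < 1 → Φ a = Φ b) :
    ∀ z : ℂ, Φ z = Φ ((1 / 2 : ℝ) : ℂ) := by
  have h1 : AnalyticOnNhd ℂ Φ univ := fun z _ => hΦ.analyticAt z
  have h2 : AnalyticOnNhd ℂ (fun _ : ℂ => Φ ((1 / 2 : ℝ) : ℂ)) univ := fun z _ => analyticAt_const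
  have h3 : ∃ᶠ z in 𝓝[≠] ((1 / 2 : ℝ) : ℂ), Φ z = Φ ((1 / 2 : ℝ) : ℂ) := by
    rw [frequently_iff]
    intro U hU
    rw [mem_nhdsWithin_iff] at hU
    obtain ⟨ε, hε, hU⟩ := hU
    have hm : 0 < min ε (1 / 4) := lt_min hε (by norm_num)
    refine ⟨((1 / 2 + min ε (1 / 4) / 2 : ℝ) : ℂ), hU ⟨?_, ?_⟩, ?_⟩
    · rw [mem_ball, dist_eq_norm, ← Complex.ofReal_sub, Complex.norm_real, Real.norm_eq_abs,
        add_sub_cancel_left, abs_of_pos (by positivity)]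
      have := min_le_left ε (1 / 4 : ℝ)
      linarith
    · intro h4
      have h5 := Complex.ofReal_injective h4
      linarith
    · refine h _ _ ?_ ?_ ?_ ?_
      · positivity
      · have := min_le_right ε (1 / 4 : ℝ)
        linarith
      · norm_num
      · norm_num
  have h4 := h1.eq_of_frequently_eq h2 h3
  intro z
  exact congrFun h4 z

theorem ph6_unique {ι : Type} [Fintype ι] (hK : IsCompact K) (π : MvPolynomial (Fin n) ℂ)
    (S : Slice K π ι) (hno : ¬ HasDisc (hull K)) (τ : ℂ) (v v' : ι → ℝ)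
    (h : S.Ψ (fun i => (v i : ℂ)) τ ∈ hull K) (h' : S.Ψ (fun i => (v' i : ℂ)) τ ∈ hull K) :
    v = v' := by
  set Φ : ℂ → (Fin n → ℂ) := fun ζ => S.Ψ (fun i => (v i : ℂ) + ζ * ((v' i : ℂ) - (v i : ℂ))) τ with hΦdef
  have hΦ : Differentiable ℂ Φ := by
    have h1 : Differentiable ℂ fun ζ : ℂ =>
        ((fun i => (v i : ℂ) + ζ * ((v' i : ℂ) - (v i : ℂ)), τ) : (ι → ℂ) × ℂ) := by
      refine Differentiable.prodMk ?_ (differentiable_const _)
      rw [differentiable_pi]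
      intro i
      fun_prop
    exact S.diff.comp h1
  have hsh : ∀ ζ : ℂ, ∃ g : (Fin n → ℂ) → (Fin n → ℂ), LipschitzWith S.C g ∧
      MapsTo g (hull K) (hull K) ∧
      Φ ζ = g (S.Ψ (fun i => ((v i + ζ.re * (v' i - v i) : ℝ) : ℂ)) τ) := by
    intro ζ
    obtain ⟨g, hg1, hg2, hg3⟩ := S.shift fun i => ζ.im * (v' i - v i)
    refine ⟨g, hg1, hg2, ?_⟩
    rw [← hg3, hΦdef]
    refine congrArg (fun w => S.Ψ w τ) (funext fun i => ?_)
    apply Complex.ext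
    · simp
    · simp
  obtain ⟨R0, hR0⟩ := (ph1_isCompact hK).isBounded.exists_norm_le
  have hcont : ContinuousOn (fun x : ℝ => S.Ψ (fun i => ((v i + x * (v' i - v i) : ℝ) : ℂ)) τ)
      (Icc 0 1) := by
    have h1 : Continuous fun x : ℝ =>
        ((fun i => ((v i + x * (v' i - v i) : ℝ) : ℂ), τ) : (ι → ℂ) × ℂ) := by
      refine Continuous.prodMk ?_ continuous_const
      refine continuous_pi fun i => ?_
      fun_prop
    exact (S.diff.continuous.comp h1).continuousOn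
  obtain ⟨R1, hR1⟩ := isCompact_Icc.exists_bound_of_continuousOn hcont
  have hstrip : ∀ ζ : ℂ, 0 ≤ ζ.re → ζ.re ≤ 1 → Φ ζ ∈ hull K := by
    refine ph2_strip Φ hΦ (R0 + S.C * (R1 + R0)) ?_ ?_ ?_
    · intro ζ h0 h1
      obtain ⟨g, hg1, hg2, hg3⟩ := hsh ζ
      rw [hg3]
      have h2 := hg1.dist_le_mul (S.Ψ (fun i => ((v i + ζ.re * (v' i - v i) : ℝ) : ℂ)) τ)
        (S.Ψ (fun i => (v i : ℂ)) τ)
      have h3 := hR0 _ (hg2 h)
      have h4 := hR1 ζ.re ⟨h0, h1⟩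
      have h5 := hR0 _ h
      rw [dist_eq_norm, dist_eq_norm] at h2
      have h6 : ‖S.Ψ (fun i => ((v i + ζ.re * (v' i - v i) : ℝ) : ℂ)) τ -
          S.Ψ (fun i => (v i : ℂ)) τ‖ ≤ R1 + R0 := (norm_sub_le _ _).trans (add_le_add h4 h5)
      have h7 : (S.C : ℝ) * ‖S.Ψ (fun i => ((v i + ζ.re * (v' i - v i) : ℝ) : ℂ)) τ -
          S.Ψ (fun i => (v i : ℂ)) τ‖ ≤ S.C * (R1 + R0) :=
        mul_le_mul_of_nonneg_left h6 S.C.coe_nonneg
      have h8 := norm_sub_norm_le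
        (g (S.Ψ (fun i => ((v i + ζ.re * (v' i - v i) : ℝ) : ℂ)) τ))
        (g (S.Ψ (fun i => (v i : ℂ)) τ))
      linarith
    · intro ζ hζ
      obtain ⟨g, hg1, hg2, hg3⟩ := hsh ζ
      rw [hg3, hζ]
      have h2 : (fun i => ((v i + 0 * (v' i - v i) : ℝ) : ℂ)) = fun i => (v i : ℂ) := by
        funext i
        rw [zero_mul, add_zero]
      rw [h2]
      exact hg2 h
    · intro ζ hζ
      obtain ⟨g, hg1, hg2, hg3⟩ := hsh ζ
      rw [hg3, hζ]
      have h2 : (fun i => ((v i + 1 * (v' i - v i) : ℝ) : ℂ)) = fun i => (v' i : ℂ) := by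
        funext i
        rw [one_mul, add_sub_cancel]
      rw [h2]
      exact hg2 h'
  by_contra hvv
  apply hno
  refine ph2_halfplane_disc Φ hΦ hstrip ?_
  by_contra hcon
  push Not at hcon
  have hc := ph6_const Φ hΦ (fun a b ha ha' hb hb' => hcon a b ha ha' hb hb')
  apply hvv
  obtain ⟨B, hB⟩ := S.proper (max |τ.re| ‖Φ ((1 / 2 : ℝ) : ℂ)‖)
  have hline : ∀ x : ℝ, ∀ i, |v i + x * (v' i - v i)| ≤ B := by
    intro x
    refine hB (fun i => v i + x * (v' i - v i)) τ (le_max_left _ _) ?_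
    have h1 : S.Ψ (fun i => ((v i + x * (v' i - v i) : ℝ) : ℂ)) τ = Φ (x : ℂ) := by
      rw [hΦdef]
      refine congrArg (fun w => S.Ψ w τ) (funext fun i => ?_)
      push_cast
      ring
    rw [h1, hc]
    exact le_max_right _ _
  funext i
  by_contra hi
  have hi' : 0 < |v' i - v i| := abs_pos.2 (sub_ne_zero.2 (fun h => hi h.symm))
  have hB0 : 0 ≤ B := (abs_nonneg _).trans (hline 0 i)
  have h1 := hline ((2 * B + 1 + |v i|) / (v' i - v i)) i
  have hne : v' i - v i ≠ 0 := abs_pos.1 hi'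
  rw [div_mul_cancel₀ _ hne] at h1
  have h2 := abs_le.1 h1
  have h3 := neg_abs_le (v i)
  linarith [h2.2]

end Pool.Agent.Lib.Helper34.PH
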