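import Pool.Agent.Lib.Helper34.PH5
import Pool.Agent.Lib.Helper34.PH6

/-!
# PH7: the core lemma
If a slice meets all fibres of `π` over a small circle, then the hull contains an analytic disc.
-/

set_option autoImplicit false

namespace Pool.Agent.Lib.Helper34.PH

open MvPolynomial Metric Set Filter Topology NNReal

variable {n : ℕ} {K : Set (Fin n → ℂ)}

/-- a branch of `log (t + r s)`. -/
noncomputable def ph7T (t : ℂ) (r : ℝ) (s : ℂ) : ℂ := Complex.log t + Complex.log (1 + r / t * s)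

theorem ph7_slit (t : ℂ) (r : ℝ) (hr : 0 < r) (hrt : r < ‖t‖) (s : ℂ)
    (hs : s ∈ ball (0 : ℂ) (‖t‖ / r)) : 1 + r / t * s ∈ Complex.slitPlane := by
  rw [mem_ball_zero_iff, lt_div_iff₀ hr] at hs
  have ht : 0 < ‖t‖ := hr.trans hrt
  have h1 : ‖(r : ℂ) / t * s‖ < 1 := by
    rw [norm_mul, norm_div, Complex.norm_real, Real.norm_of_nonneg hr.le, div_mul_eq_mul_div,
      div_lt_one ht]
    linarith
  have h2 := (abs_le.1 (Complex.abs_re_le_norm ((r : ℂ) / t * s))).1
  left
  rw [Complex.add_re, Complex.one_re]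
  linarith

theorem ph7_exp (t : ℂ) (r : ℝ) (hr : 0 < r) (hrt : r < ‖t‖) (s : ℂ)
    (hs : s ∈ ball (0 : ℂ) (‖t‖ / r)) : Complex.exp (ph7T t r s) = t + r * s := by
  have ht : t ≠ 0 := norm_pos_iff.1 (hr.trans hrt)
  rw [ph7T, Complex.exp_add, Complex.exp_log ht,
    Complex.exp_log (Complex.slitPlane_ne_zero (ph7_slit t r hr hrt s hs))]
  field_simp

theorem ph7_diff (t : ℂ) (r : ℝ) (hr : 0 < r) (hrt : r < ‖t‖) :
    DifferentiableOn ℂ (ph7T t r) (ball (0 : ℂ) (‖t‖ / r)) := by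
  intro s hs
  have h1 : DifferentiableAt ℂ (fun s : ℂ => 1 + r / t * s) s := by fun_prop
  have h2 : DifferentiableAt ℂ (fun s : ℂ => Complex.log (1 + r / t * s)) s :=
    h1.clog (ph7_slit t r hr hrt s hs)
  exact ((differentiableAt_const _).add h2).differentiableWithinAt

theorem ph7_one_lt (t : ℂ) (r : ℝ) (hr : 0 < r) (hrt : r < ‖t‖) : 1 < ‖t‖ / r := by
  rwa [lt_div_iff₀ hr, one_mul]

/-- the real parameters of the points of the hull on the slice depend continuously on the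
base point. -/
theorem ph7_continuous {ι : Type} [Fintype ι] (hK : IsCompact K) (π : MvPolynomial (Fin n) ℂ)
    (S : Slice K π ι) (hno : ¬ HasDisc (hull K)) (T : ℂ → ℂ) (hT : ContinuousOn T (sphere 0 1))
    (V : ℂ → ι → ℝ) (hV : ∀ s ∈ sphere (0 : ℂ) 1, S.Ψ (fun i => (V s i : ℂ)) (T s) ∈ hull K) :
    ∃ B : ℝ, (∀ s ∈ sphere (0 : ℂ) 1, ∀ i, |V s i| ≤ B) ∧ ContinuousOn V (sphere (0 : ℂ) 1) := by
  obtain ⟨R0, hR0⟩ := (ph1_isCompact hK).isBounded.exists_norm_le
  obtain ⟨R1, hR1⟩ := (isCompact_sphere (0 : ℂ) 1).exists_bound_of_continuousOn hT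
  obtain ⟨B, hB⟩ := S.proper (max R1 R0)
  have hVB : ∀ s ∈ sphere (0 : ℂ) 1, ∀ i, |V s i| ≤ B := by
    intro s hs
    refine hB (V s) (T s) ?_ ((hR0 _ (hV s hs)).trans (le_max_right _ _))
    exact ((Complex.abs_re_le_norm _).trans (hR1 s hs)).trans (le_max_left _ _)
  refine ⟨B, hVB, ?_⟩
  intro s0 hs0
  have hcpt : IsCompact (Set.pi univ fun _ : ι => Icc (-B) B) := isCompact_univ_pi fun _ => isCompact_Icc
  refine hcpt.tendsto_nhds_of_unique_mapClusterPt ?_ ?_
  · filter_upwards [self_mem_nhdsWithin] with s hs i _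
    exact abs_le.1 (hVB s hs i)
  · intro w _ hw
    rw [mapClusterPt_iff_ultrafilter] at hw
    obtain ⟨U, hU, hUw⟩ := hw
    have h1 : Tendsto T U (𝓝 (T s0)) := (hT s0 hs0).mono_left hU
    have h2 : Tendsto (fun s => S.Ψ (fun i => (V s i : ℂ)) (T s)) U
        (𝓝 (S.Ψ (fun i => (w i : ℂ)) (T s0))) := by
      have h3 : Tendsto (fun s => (fun i => (V s i : ℂ))) (U : Filter ℂ) (𝓝 (fun i => (w i : ℂ))) := by
        rw [tendsto_pi_nhds] at hUw ⊢
        intro i
        exact (Complex.continuous_ofReal.tendsto _).comp (hUw i)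
      have h4 := S.diff.continuous.tendsto ((fun i => (w i : ℂ)), T s0)
      exact h4.comp (h3.prodMk_nhds h1)
    have h5 : S.Ψ (fun i => (w i : ℂ)) (T s0) ∈ hull K := by
      refine ph1_isClosed.mem_of_tendsto h2 ?_
      have h6 : sphere (0 : ℂ) 1 ∈ (U : Filter ℂ) := hU self_mem_nhdsWithin
      filter_upwards [h6] with s hs
      exact hV s hs
    exact ph6_unique hK π S hno (T s0) w (V s0) h5 (hV s0 hs0)

theorem ph7_core {ι : Type} [Fintype ι] (hK : IsCompact K) (π : MvPolynomial (Fin n) ℂ)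
    (S : Slice K π ι) (t : ℂ) (r : ℝ) (hr : 0 < r) (hrt : r < ‖t‖)
    (hfib : ∀ a ∈ sphere t r, ∃ z ∈ hull K, eval z π = a) : HasDisc (hull K) := by
  by_contra hno
  have hρ := ph7_one_lt t r hr hrt
  have hsub1 : closedBall (0 : ℂ) 1 ⊆ ball (0 : ℂ) (‖t‖ / r) := closedBall_subset_ball hρ
  have hTd := ph7_diff t r hr hrt
  have hTe := ph7_exp t r hr hrt
  set T := ph7T t r with hTdef
  have hTc : ContinuousOn T (closedBall 0 1) := (hTd.mono hsub1).continuousOn
  have hsph : sphere (0 : ℂ) 1 ⊆ closedBall (0 : ℂ) 1 := sphere_subset_closedBall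
  have hTs : ContinuousOn T (sphere 0 1) := hTc.mono hsph
  -- the points of the hull on the slice
  have hex : ∀ s : ℂ, ∃ v : ι → ℝ, s ∈ sphere (0 : ℂ) 1 → S.Ψ (fun i => (v i : ℂ)) (T s) ∈ hull K := by
    intro s
    by_cases hs : s ∈ sphere (0 : ℂ) 1
    · obtain ⟨z, hz, hzt⟩ := hfib (t + r * s) (by
        rw [mem_sphere_iff_norm, add_sub_cancel_left, norm_mul, Complex.norm_real,
          Real.norm_of_nonneg hr.le, mem_sphere_zero_iff_norm.1 hs, mul_one])
      obtain ⟨v, hv⟩ := S.surj z hz (T s) (by rw [hzt, hTe s (hsub1 (hsph hs))])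
      exact ⟨v, fun _ => hv⟩
    · exact ⟨0, fun h => absurd h hs⟩
  choose V hV using hex
  obtain ⟨B, hVB, hVc⟩ := ph7_continuous hK π S hno T hTs V (fun s hs => hV s hs)
  have hVci : ∀ i, ContinuousOn (fun s => V s i) (sphere (0 : ℂ) 1) := fun i =>
    (continuous_apply i).comp_continuousOn hVc
  choose p hp g hg hpg using fun i => ph5_seq (fun s => V s i) (hVci i)
  -- the approximating discs
  set X : ℕ → ℂ → (Fin n → ℂ) := fun k s => S.Ψ (fun i => (p i k).eval s) (T s) with hX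
  obtain ⟨R0, hR0⟩ := (ph1_isCompact hK).isBounded.exists_norm_le
  have hXd : ∀ k, DifferentiableOn ℂ (X k) (closedBall 0 1) := by
    intro k
    have h1 : DifferentiableOn ℂ (fun s : ℂ => ((fun i => (p i k).eval s, T s) : (ι → ℂ) × ℂ))
        (closedBall 0 1) := by
      refine DifferentiableOn.prodMk ?_ (hTd.mono hsub1)
      rw [differentiableOn_pi]
      intro i
      exact (p i k).differentiable.differentiableOn
    exact S.diff.comp_differentiableOn h1
  have hclose : ∀ P : MvPolynomial (Fin n) ℂ, ∀ c : ℝ, (∀ w ∈ hull K, ‖eval w P‖ ≤ c) →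
      ∀ ε : ℝ, 0 < ε → ∃ N : ℕ, ∀ k, N ≤ k → ∀ s ∈ sphere (0 : ℂ) 1, ‖eval (X k s) P‖ ≤ c + ε := by
    intro P c hc ε hε
    have hPu := (isCompact_closedBall (0 : Fin n → ℂ) (R0 + 1)).uniformContinuousOn_of_continuous
      (ph1_continuous_eval P).continuousOn
    rw [Metric.uniformContinuousOn_iff] at hPu
    obtain ⟨δ1, hδ1, hPu⟩ := hPu ε hε
    have hFc : ContinuousOn (fun q : (ι → ℝ) × ℂ => S.Ψ (fun i => (q.1 i : ℂ)) (T q.2))
        ((Set.pi univ fun _ : ι => Icc (-(B + 1)) (B + 1)) ×ˢ sphere (0 : ℂ) 1) := by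
      have h1 : ContinuousOn (fun q : (ι → ℝ) × ℂ => ((fun i => (q.1 i : ℂ), T q.2) : (ι → ℂ) × ℂ))
          ((Set.pi univ fun _ : ι => Icc (-(B + 1)) (B + 1)) ×ˢ sphere (0 : ℂ) 1) := by
        refine ContinuousOn.prodMk ?_ (hTs.comp continuous_snd.continuousOn fun q hq => hq.2)
        refine Continuous.continuousOn ?_
        refine continuous_pi fun i => ?_
        exact Complex.continuous_ofReal.comp ((continuous_apply i).comp continuous_fst)
      exact S.diff.continuous.comp_continuousOn h1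
    have hcpt : IsCompact ((Set.pi univ fun _ : ι => Icc (-(B + 1)) (B + 1)) ×ˢ sphere (0 : ℂ) 1) :=
      (isCompact_univ_pi fun _ => isCompact_Icc).prod (isCompact_sphere _ _)
    have hFu := hcpt.uniformContinuousOn_of_continuous hFc
    rw [Metric.uniformContinuousOn_iff] at hFu
    have hC0 : (0 : ℝ) ≤ S.C := S.C.coe_nonneg
    obtain ⟨δ2, hδ2, hFu⟩ := hFu (min δ1 1 / (S.C + 1)) (by positivity)
    obtain ⟨N, hN⟩ := exists_nat_one_div_lt (lt_min hδ2 one_pos)
    refine ⟨N, fun k hk s hs => ?_⟩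
    have hs1 : ‖s‖ = 1 := mem_sphere_zero_iff_norm.1 hs
    have hk1 : 1 / ((k : ℝ) + 1) ≤ 1 / ((N : ℝ) + 1) := by
      apply one_div_le_one_div_of_le (by positivity)
      have : (N : ℝ) ≤ k := Nat.cast_le.2 hk
      linarith
    have hpk : ∀ i, |((p i k).eval s).re - V s i| < min δ2 1 := fun i =>
      (hp i k s hs1).trans_le (hk1.trans hN.le)
    obtain ⟨G, hG1, hG2, hG3⟩ := S.shift fun i => ((p i k).eval s).im
    have hXG : X k s = G (S.Ψ (fun i => ((((p i k).eval s).re : ℝ) : ℂ)) (T s)) := by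
      rw [← hG3, hX]
      refine congrArg (fun w => S.Ψ w (T s)) (funext fun i => ?_)
      exact (Complex.re_add_im _).symm
    have h2 : dist (S.Ψ (fun i => ((((p i k).eval s).re : ℝ) : ℂ)) (T s))
        (S.Ψ (fun i => (V s i : ℂ)) (T s)) < min δ1 1 / (S.C + 1) := by
      refine hFu ((fun i => ((p i k).eval s).re), s) ⟨fun i _ => ?_, hs⟩ (V s, s)
        ⟨fun i _ => ?_, hs⟩ ?_
      · have h3 := abs_lt.1 ((hpk i).trans_le (min_le_right _ _))
        have h4 := abs_le.1 (hVB s hs i)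
        constructor <;> linarith [h3.1, h3.2, h4.1, h4.2]
      · have h4 := abs_le.1 (hVB s hs i)
        constructor <;> linarith [h4.1, h4.2]
      · rw [Prod.dist_eq, dist_self, max_lt_iff]
        refine ⟨?_, hδ2⟩
        rw [dist_pi_lt_iff hδ2]
        intro i
        rw [Real.dist_eq]
        exact (hpk i).trans_le (min_le_left _ _)
    have h5 := hG1.dist_le_mul (S.Ψ (fun i => ((((p i k).eval s).re : ℝ) : ℂ)) (T s))
      (S.Ψ (fun i => (V s i : ℂ)) (T s))
    have h6 : dist (X k s) (G (S.Ψ (fun i => (V s i : ℂ)) (T s))) < min δ1 1 := by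
      rw [hXG]
      refine h5.trans_lt ?_
      have h7 : (S.C : ℝ) * dist (S.Ψ (fun i => ((((p i k).eval s).re : ℝ) : ℂ)) (T s))
          (S.Ψ (fun i => (V s i : ℂ)) (T s)) ≤ S.C * (min δ1 1 / (S.C + 1)) :=
        mul_le_mul_of_nonneg_left h2.le hC0
      refine h7.trans_lt ?_
      have h8 : 0 < min δ1 1 := lt_min hδ1 one_pos
      rw [mul_div_assoc', div_lt_iff₀ (by positivity)]
      nlinarith
    have hGV : G (S.Ψ (fun i => (V s i : ℂ)) (T s)) ∈ hull K := hG2 (hV s hs)
    have h9 := hR0 _ hGV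
    have h10 : ‖X k s‖ ≤ R0 + 1 := by
      have h11 := norm_sub_norm_le (X k s) (G (S.Ψ (fun i => (V s i : ℂ)) (T s)))
      rw [← dist_eq_norm] at h11
      have h12 := h6.trans_le (min_le_right _ _)
      linarith
    have h13 := hPu (X k s) (mem_closedBall_zero_iff.2 h10) _
      (mem_closedBall_zero_iff.2 (h9.trans (by linarith))) (h6.trans_le (min_le_left _ _))
    have h14 := hc _ hGV
    have h15 := norm_sub_norm_le (eval (X k s) P) (eval (G (S.Ψ (fun i => (V s i : ℂ)) (T s))) P)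
    rw [dist_eq_norm] at h13
    linarith
  -- the limit disc
  have hsub2 : ball (0 : ℂ) (1 / 2) ⊆ closedBall (0 : ℂ) 1 := by
    intro z hz
    rw [mem_ball_zero_iff] at hz
    rw [mem_closedBall_zero_iff]
    linarith
  have hlimit : ∀ z ∈ ball (0 : ℂ) (1 / 2), S.Ψ (fun i => g i z) (T z) ∈ hull K := by
    intro z hz
    refine ph1_hull_hull fun P c hc => ?_
    refine le_of_forall_pos_le_add fun ε hε => ?_
    obtain ⟨N, hN⟩ := hclose P c hc ε hε
    have h1 : Tendsto (fun k => ‖eval (X k z) P‖) atTop (𝓝 ‖eval (S.Ψ (fun i => g i z) (T z)) P‖) := by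
      have h2 : Tendsto (fun k => (fun i => (p i k).eval z)) atTop (𝓝 fun i => g i z) := by
        rw [tendsto_pi_nhds]
        intro i
        exact hpg i z hz
      have h3 := S.diff.continuous.tendsto ((fun i => g i z), T z)
      have h4 : Tendsto (fun k => X k z) atTop (𝓝 (S.Ψ (fun i => g i z) (T z))) :=
        h3.comp (h2.prodMk_nhds tendsto_const_nhds)
      exact (((ph1_continuous_eval P).tendsto _).comp h4).norm
    refine le_of_tendsto h1 ?_
    filter_upwards [eventually_ge_atTop N] with k hk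
    have h5 : DiffContOnCl ℂ (fun s => eval (X k s) P) (ball (0 : ℂ) 1) := by
      refine DifferentiableOn.diffContOnCl ?_
      rw [closure_ball (0 : ℂ) one_ne_zero]
      exact ph2_diff (hXd k) P
    refine Complex.norm_le_of_forall_mem_frontier_norm_le (f := fun s => eval (X k s) P)
      isBounded_ball h5 (fun s hs => ?_) ?_
    · rw [frontier_ball (0 : ℂ) one_ne_zero] at hs
      exact hN k hk s hs
    · rw [closure_ball (0 : ℂ) one_ne_zero]
      exact hsub2 hz
  apply hno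
  refine ph1_disc (fun z => S.Ψ (fun i => g i z) (T z)) 0 (1 / 2) (by norm_num) ?_ ?_ hlimit
  · have h1 : DifferentiableOn ℂ (fun s : ℂ => ((fun i => g i s, T s) : (ι → ℂ) × ℂ))
        (ball 0 (1 / 2)) := by
      refine DifferentiableOn.prodMk ?_ (hTd.mono (hsub2.trans hsub1))
      rw [differentiableOn_pi]
      exact hg
    exact S.diff.comp_differentiableOn h1
  · have h0 : (0 : ℂ) ∈ ball (0 : ℂ) (1 / 2) := mem_ball_self (by norm_num)
    have h1 : ((1 / 4 : ℝ) : ℂ) ∈ ball (0 : ℂ) (1 / 2) := by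
      rw [mem_ball_zero_iff, Complex.norm_real, Real.norm_of_nonneg (by norm_num)]
      norm_num
    refine ⟨0, h0, ((1 / 4 : ℝ) : ℂ), h1, fun heq => ?_⟩
    have h2 := congrArg (fun w => eval w π) heq
    simp only [S.inv] at h2
    rw [hTe _ (hsub1 (hsub2 h0)), hTe _ (hsub1 (hsub2 h1)), mul_zero] at h2
    have h3 : (r : ℂ) * ((1 / 4 : ℝ) : ℂ) = 0 := (add_left_cancel h2).symm
    rw [← Complex.ofReal_mul] at h3
    have h4 := Complex.ofReal_eq_zero.1 h3
    have h5 : 0 < r * (1 / 4) := by positivity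
    linarith

end Pool.Agent.Lib.Helper34.PH
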