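import Pool.Agent.Lib.Helper34.PH3
import Pool.Agent.Lib.Helper34.PH7

/-!
# PH8: from a point of the hull outside `π(K)` to a disc
-/

set_option autoImplicit false

namespace Pool.Agent.Lib.Helper34.PH

open MvPolynomial Metric Set Filter Topology NNReal

variable {n : ℕ} {K : Set (Fin n → ℂ)}

theorem ph8_main {ι : Type} [Fintype ι] (hK : IsCompact K) (π : MvPolynomial (Fin n) ℂ)
    (S : Slice K π ι) (x : Fin n → ℂ) (hx : x ∈ hull K) (hxK : ∀ w ∈ K, eval w π ≠ eval x π) :
    HasDisc (hull K) := by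
  obtain ⟨w0, hw0, hmin⟩ := hK.exists_isMinOn (ph3_nonempty hx)
    (f := fun w => ‖eval w π - eval x π‖)
    ((ph1_continuous_eval π).sub continuous_const).norm.continuousOn
  set t0 := eval x π with ht0
  set δ : ℝ := ‖eval w0 π - t0‖ with hδdef
  have hδ : 0 < δ := norm_pos_iff.2 (sub_ne_zero.2 (hxK w0 hw0))
  have hδw : ∀ w ∈ K, δ ≤ ‖eval w π - t0‖ := fun w hw => hmin hw
  have hfib : ∀ a : ℂ, ‖a - t0‖ < δ / 2 → ∃ z ∈ hull K, eval z π = a := by
    intro a ha
    refine ph3_fibre hK π a (δ / 2) (by positivity) ?_ x hx ?_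
    · intro w hw
      have h1 := hδw w hw
      have h2 : eval w π - t0 = (eval w π - a) + (a - t0) := by ring
      have h3 := norm_add_le (eval w π - a) (a - t0)
      rw [← h2] at h3
      linarith
    · rw [← ht0, norm_sub_rev]
      exact ha
  obtain ⟨t1, ht1, ht10⟩ : ∃ t1 : ℂ, t1 ≠ 0 ∧ ‖t1 - t0‖ ≤ δ / 8 := by
    by_cases h : t0 = 0
    · refine ⟨((δ / 8 : ℝ) : ℂ), ?_, ?_⟩
      · rw [Ne, Complex.ofReal_eq_zero]
        positivity
      · rw [h, sub_zero, Complex.norm_real, Real.norm_of_nonneg (by positivity)]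
    · refine ⟨t0, h, ?_⟩
      rw [sub_self, norm_zero]
      positivity
  have ht1' : 0 < ‖t1‖ := norm_pos_iff.2 ht1
  refine ph7_core hK π S t1 (min (‖t1‖ / 2) (δ / 8)) (lt_min (by positivity) (by positivity)) ?_ ?_
  · have := min_le_left (‖t1‖ / 2) (δ / 8)
    linarith
  · intro a ha
    rw [mem_sphere_iff_norm] at ha
    refine hfib a ?_
    have h1 := min_le_right (‖t1‖ / 2) (δ / 8)
    have h2 : a - t0 = (a - t1) + (t1 - t0) := by ring
    rw [h2]
    refine (norm_add_le _ _).trans_lt ?_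
    linarith

end Pool.Agent.Lib.Helper34.PH
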