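import Pool.Agent.Lib.Helper34.PH8

/-!
# PH9: the slice of a torus of codimension one
-/

set_option autoImplicit false

namespace Pool.Agent.Lib.Helper34.PH

open MvPolynomial Metric Set Filter Topology NNReal

variable {n : ℕ} {K : Set (Fin n → ℂ)}

/-- indices of the slice. -/
abbrev PH9Idx (M : Fin n → ℕ) (j : Fin n) : Type := {i : Fin n // M i ≠ 0 ∧ i ≠ j}

/-- linear forms with `∑ M_i L_i = τ`. -/
noncomputable def ph9L (M : Fin n → ℕ) (j : Fin n) (v : PH9Idx M j → ℂ) (τ : ℂ) (i : Fin n) : ℂ :=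
  if h : M i ≠ 0 ∧ i ≠ j then v ⟨i, h⟩ else
    if i = j then (τ - ∑ k : PH9Idx M j, (M k.1 : ℂ) * v k) / M j else 0

theorem ph9_sum (M : Fin n → ℕ) (j : Fin n) (hj : M j ≠ 0) (v : PH9Idx M j → ℂ) (τ : ℂ) :
    ∑ i, (M i : ℂ) * ph9L M j v τ i = τ := by
  classical
  have hj' : (M j : ℂ) ≠ 0 := Nat.cast_ne_zero.2 hj
  set f : Fin n → ℂ := fun i => if h : M i ≠ 0 ∧ i ≠ j then v ⟨i, h⟩ else 0 with hf
  have h1 : ∀ i, (M i : ℂ) * ph9L M j v τ i =
      (if i = j then τ - ∑ k : PH9Idx M j, (M k.1 : ℂ) * v k else 0) +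
        (if M i ≠ 0 ∧ i ≠ j then (M i : ℂ) * f i else 0) := by
    intro i
    by_cases hij : i = j
    · subst hij
      rw [if_pos rfl, if_neg (fun h => h.2 rfl), ph9L, dif_neg (fun h => h.2 rfl), if_pos rfl, add_zero,
        mul_div_cancel₀ _ hj']
    · rw [if_neg hij, zero_add, ph9L]
      by_cases hM : M i ≠ 0 ∧ i ≠ j
      · rw [dif_pos hM, if_pos hM, hf]
        simp only
        rw [dif_pos hM]
      · rw [dif_neg hM, if_neg hM, if_neg hij, mul_zero]
  rw [Finset.sum_congr rfl fun i _ => h1 i, Finset.sum_add_distrib, Finset.sum_ite_eq' Finset.univ j,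
    if_pos (Finset.mem_univ j), ← Finset.sum_filter,
    Finset.sum_subtype (Finset.univ.filter fun i => M i ≠ 0 ∧ i ≠ j) (p := fun i => M i ≠ 0 ∧ i ≠ j)
      (fun i => by rw [Finset.mem_filter]; exact ⟨fun h => h.2, fun h => ⟨Finset.mem_univ i, h⟩⟩)]
  have h2 : ∀ k : PH9Idx M j, (M k.1 : ℂ) * f k.1 = (M k.1 : ℂ) * v k := by
    intro k
    rw [hf]
    simp only
    rw [dif_pos k.2]
  rw [Finset.sum_congr rfl fun k _ => h2 k, sub_add_cancel]

theorem ph9_add (M : Fin n → ℕ) (j : Fin n) (v w : PH9Idx M j → ℂ) (τ σ : ℂ) (i : Fin n) :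
    ph9L M j (fun k => v k + w k) (τ + σ) i = ph9L M j v τ i + ph9L M j w σ i := by
  unfold ph9L
  by_cases h : M i ≠ 0 ∧ i ≠ j
  · rw [dif_pos h, dif_pos h, dif_pos h]
  · rw [dif_neg h, dif_neg h, dif_neg h]
    by_cases h' : i = j
    · rw [if_pos h', if_pos h', if_pos h', ← add_div]
      congr 1
      simp only [mul_add, Finset.sum_add_distrib]
      ring
    · rw [if_neg h', if_neg h', if_neg h', add_zero]

theorem ph9_re (M : Fin n → ℕ) (j : Fin n) (v : PH9Idx M j → ℝ) (τ : ℂ) (i : Fin n) :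
    (ph9L M j (fun k => (v k : ℂ)) τ i).re =
      if h : M i ≠ 0 ∧ i ≠ j then v ⟨i, h⟩ else
        if i = j then (τ.re - ∑ k : PH9Idx M j, (M k.1 : ℝ) * v k) / M j else 0 := by
  unfold ph9L
  by_cases h : M i ≠ 0 ∧ i ≠ j
  · rw [dif_pos h, dif_pos h, Complex.ofReal_re]
  · rw [dif_neg h, dif_neg h]
    by_cases h' : i = j
    · rw [if_pos h', if_pos h']
      have h1 : (τ - ∑ k : PH9Idx M j, (M k.1 : ℂ) * (v k : ℂ)) / (M j : ℂ) =
          (τ - ((∑ k : PH9Idx M j, (M k.1 : ℝ) * v k : ℝ) : ℂ)) / ((M j : ℝ) : ℂ) := by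
        push_cast
        rfl
      rw [h1, Complex.div_ofReal_re, Complex.sub_re, Complex.ofReal_re]
    · rw [if_neg h', if_neg h', Complex.zero_re]

/-- imaginary parameters give imaginary forms. -/
theorem ph9_im (M : Fin n → ℕ) (j : Fin n) (η : PH9Idx M j → ℝ) (i : Fin n) :
    (ph9L M j (fun k => (η k : ℂ) * Complex.I) 0 i).re = 0 := by
  unfold ph9L
  by_cases h : M i ≠ 0 ∧ i ≠ j
  · rw [dif_pos h]
    simp
  · rw [dif_neg h]
    by_cases h' : i = j
    · rw [if_pos h']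
      have h1 : (0 - ∑ k : PH9Idx M j, (M k.1 : ℂ) * ((η k : ℂ) * Complex.I)) / (M j : ℂ) =
          (((-∑ k : PH9Idx M j, (M k.1 : ℝ) * η k) / (M j : ℝ) : ℝ) : ℂ) * Complex.I := by
        push_cast
        rw [zero_sub, neg_div, neg_div, neg_mul, div_mul_eq_mul_div, Finset.sum_mul]
        congr 2
        refine Finset.sum_congr rfl fun k _ => ?_
        ring
      rw [h1]
      simp
    · rw [if_neg h', Complex.zero_re]

/-- the slice map. -/
noncomputable def ph9Psi (M : Fin n → ℕ) (j : Fin n) (v : PH9Idx M j → ℂ) (τ : ℂ) : Fin n → ℂ :=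
  fun i => if M i = 0 then 0 else Complex.exp (ph9L M j v τ i)

/-- the invariant monomial. -/
noncomputable def ph9Pi (M : Fin n → ℕ) : MvPolynomial (Fin n) ℂ := ∏ i, X i ^ M i

theorem ph9_eval (M : Fin n → ℕ) (z : Fin n → ℂ) : eval z (ph9Pi M) = ∏ i, z i ^ M i := by
  rw [ph9Pi, map_prod]
  refine Finset.prod_congr rfl fun i _ => ?_
  rw [map_pow, eval_X]

theorem ph9_inv (M : Fin n → ℕ) (j : Fin n) (hj : M j ≠ 0) (v : PH9Idx M j → ℂ) (τ : ℂ) :
    eval (ph9Psi M j v τ) (ph9Pi M) = Complex.exp τ := by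
  rw [ph9_eval]
  have h1 : ∀ i, ph9Psi M j v τ i ^ M i = Complex.exp ((M i : ℂ) * ph9L M j v τ i) := by
    intro i
    rw [ph9Psi]
    by_cases hM : M i = 0
    · rw [hM, pow_zero, Nat.cast_zero, zero_mul, Complex.exp_zero]
    · rw [if_neg hM, ← Complex.exp_nat_mul]
  rw [Finset.prod_congr rfl fun i _ => h1 i, ← Complex.exp_sum, ph9_sum M j hj]

theorem ph9_diffL (M : Fin n → ℕ) (j : Fin n) (i : Fin n) :
    Differentiable ℂ fun q : (PH9Idx M j → ℂ) × ℂ => ph9L M j q.1 q.2 i := by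
  unfold ph9L
  by_cases h : M i ≠ 0 ∧ i ≠ j
  · simp only [dif_pos h]
    fun_prop
  · simp only [dif_neg h]
    by_cases h' : i = j
    · simp only [if_pos h']
      fun_prop
    · simp only [if_neg h']
      fun_prop

theorem ph9_diff (M : Fin n → ℕ) (j : Fin n) :
    Differentiable ℂ fun q : (PH9Idx M j → ℂ) × ℂ => ph9Psi M j q.1 q.2 := by
  rw [differentiable_pi]
  intro i
  unfold ph9Psi
  by_cases hM : M i = 0
  · simp only [if_pos hM]
    fun_prop
  · simp only [if_neg hM]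
    exact (ph9_diffL M j i).cexp

/-- invariance under the torus `∏ u_i ^ M_i = 1`. -/
def PH9Inv (M : Fin n → ℕ) (S : Set (Fin n → ℂ)) : Prop :=
  ∀ u : Fin n → ℂ, (∀ i, ‖u i‖ = 1) → ∏ i, u i ^ M i = 1 → ∀ z ∈ S, (fun i => u i * z i) ∈ S

theorem ph9_inv_hull {M : Fin n → ℕ} (h : PH9Inv M K) : PH9Inv M (hull K) :=
  fun u hu hp _ hz => ph1_smul u (h u hu hp) hz

theorem ph9_shift (M : Fin n → ℕ) (j : Fin n) (hj : M j ≠ 0) (hinv : PH9Inv M (hull K))
    (η : PH9Idx M j → ℝ) : ∃ g : (Fin n → ℂ) → (Fin n → ℂ), LipschitzWith 1 g ∧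
    MapsTo g (hull K) (hull K) ∧ ∀ (v : PH9Idx M j → ℂ) (τ : ℂ),
      ph9Psi M j (fun i => v i + (η i : ℂ) * Complex.I) τ = g (ph9Psi M j v τ) := by
  set u : Fin n → ℂ := fun i => Complex.exp (ph9L M j (fun k => (η k : ℂ) * Complex.I) 0 i) with hu
  have hu1 : ∀ i, ‖u i‖ = 1 := by
    intro i
    rw [hu]
    simp only
    rw [Complex.norm_exp, ph9_im, Real.exp_zero]
  have hup : ∏ i, u i ^ M i = 1 := by
    have h1 : ∀ i, u i ^ M i =
        Complex.exp ((M i : ℂ) * ph9L M j (fun k => (η k : ℂ) * Complex.I) 0 i) := by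
      intro i
      rw [hu]
      simp only
      rw [← Complex.exp_nat_mul]
    rw [Finset.prod_congr rfl fun i _ => h1 i, ← Complex.exp_sum, ph9_sum M j hj, Complex.exp_zero]
  refine ⟨fun z i => u i * z i, ?_, fun z hz => hinv u hu1 hup z hz, ?_⟩
  · refine LipschitzWith.of_dist_le_mul fun z w => ?_
    rw [NNReal.coe_one, one_mul, dist_pi_le_iff dist_nonneg]
    intro i
    rw [dist_eq_norm, ← mul_sub, norm_mul, hu1, one_mul, ← dist_eq_norm]
    exact dist_le_pi_dist z w i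
  · intro v τ
    funext i
    have h1 := ph9_add M j v (fun k => (η k : ℂ) * Complex.I) τ 0 i
    rw [add_zero] at h1
    change ph9Psi M j (fun k => v k + (η k : ℂ) * Complex.I) τ i = u i * ph9Psi M j v τ i
    unfold ph9Psi
    by_cases hM : M i = 0
    · rw [if_pos hM, if_pos hM, mul_zero]
    · rw [if_neg hM, if_neg hM, h1, Complex.exp_add, mul_comm]

theorem ph9_proper (M : Fin n → ℕ) (j : Fin n) (hj : M j ≠ 0) (R : ℝ) :
    ∃ B : ℝ, ∀ (v : PH9Idx M j → ℝ) (τ : ℂ), |τ.re| ≤ R →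
      ‖ph9Psi M j (fun i => (v i : ℂ)) τ‖ ≤ R → ∀ i, |v i| ≤ B := by
  have hj' : (0 : ℝ) < M j := Nat.cast_pos.2 (Nat.pos_of_ne_zero hj)
  refine ⟨(M j : ℝ) * |Real.log R| + R + (∑ k : PH9Idx M j, (M k.1 : ℝ)) * |Real.log R| +
    |Real.log R|, fun v τ hτ hR => ?_⟩
  have hR0 : 0 < R := by
    have h1 := norm_le_pi_norm (ph9Psi M j (fun i => (v i : ℂ)) τ) j
    have h2 : 0 < ‖ph9Psi M j (fun i => (v i : ℂ)) τ j‖ := by
      rw [ph9Psi, if_neg hj, Complex.norm_exp]
      exact Real.exp_pos _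
    linarith
  have hle : ∀ i, M i ≠ 0 → (ph9L M j (fun k => (v k : ℂ)) τ i).re ≤ |Real.log R| := by
    intro i hi
    have h1 := norm_le_pi_norm (ph9Psi M j (fun i => (v i : ℂ)) τ) i
    rw [ph9Psi, if_neg hi, Complex.norm_exp] at h1
    have h2 : Real.exp (ph9L M j (fun k => (v k : ℂ)) τ i).re ≤ R := h1.trans hR
    have h3 := (Real.le_log_iff_exp_le hR0).2 h2
    exact h3.trans (le_abs_self _)
  have hv : ∀ k : PH9Idx M j, v k ≤ |Real.log R| := by
    intro k
    have h1 := hle k.1 k.2.1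
    rw [ph9_re, dif_pos k.2] at h1
    exact h1
  have hsum : -((M j : ℝ) * |Real.log R| + R) ≤ ∑ k : PH9Idx M j, (M k.1 : ℝ) * v k := by
    have h1 := hle j hj
    rw [ph9_re, dif_neg (fun h => h.2 rfl), if_pos rfl, div_le_iff₀ hj'] at h1
    have h2 := (abs_le.1 hτ).1
    linarith
  have hL : 0 ≤ |Real.log R| := abs_nonneg _
  have hS0 : 0 ≤ ∑ k : PH9Idx M j, (M k.1 : ℝ) := Finset.sum_nonneg fun k _ => Nat.cast_nonneg _
  intro i
  rw [abs_le]
  constructor
  · have hi1 : (1 : ℝ) ≤ M i.1 := Nat.one_le_cast.2 (Nat.pos_of_ne_zero i.2.1)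
    by_cases hvi : 0 ≤ v i
    · have : 0 ≤ (M j : ℝ) * |Real.log R| := mul_nonneg hj'.le hL
      have : 0 ≤ (∑ k : PH9Idx M j, (M k.1 : ℝ)) * |Real.log R| := mul_nonneg hS0 hL
      linarith
    · rw [not_le] at hvi
      have h1 : ∑ k : PH9Idx M j, (M k.1 : ℝ) * v k ≤
          (M i.1 : ℝ) * v i + ∑ k : PH9Idx M j, (M k.1 : ℝ) * |Real.log R| := by
        rw [← Finset.add_sum_erase _ _ (Finset.mem_univ i)]
        refine add_le_add le_rfl ?_
        calc ∑ k ∈ Finset.univ.erase i, (M k.1 : ℝ) * v k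
            ≤ ∑ k ∈ Finset.univ.erase i, (M k.1 : ℝ) * |Real.log R| :=
              Finset.sum_le_sum fun k _ => mul_le_mul_of_nonneg_left (hv k) (Nat.cast_nonneg _)
          _ ≤ ∑ k : PH9Idx M j, (M k.1 : ℝ) * |Real.log R| :=
              Finset.sum_le_sum_of_subset_of_nonneg (Finset.erase_subset _ _)
                fun k _ _ => mul_nonneg (Nat.cast_nonneg _) hL
      rw [← Finset.sum_mul] at h1
      have h2 : (M i.1 : ℝ) * v i ≤ v i := by nlinarith
      linarith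
  · have h1 := hv i
    have : 0 ≤ (M j : ℝ) * |Real.log R| := mul_nonneg hj'.le hL
    have : 0 ≤ (∑ k : PH9Idx M j, (M k.1 : ℝ)) * |Real.log R| := mul_nonneg hS0 hL
    linarith

/-- points with the right support lie in the orbit of the slice. -/
theorem ph9_surj (M : Fin n → ℕ) (j : Fin n) (hj : M j ≠ 0) (z : Fin n → ℂ)
    (hz : ∀ i, z i ≠ 0 ↔ M i ≠ 0) (τ : ℂ) (hτ : eval z (ph9Pi M) = Complex.exp τ) :
    ∃ (v : PH9Idx M j → ℝ) (u : Fin n → ℂ), (∀ i, ‖u i‖ = 1) ∧ ∏ i, u i ^ M i = 1 ∧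
      ph9Psi M j (fun k => (v k : ℂ)) τ = fun i => u i * z i := by
  have hj' : (0 : ℝ) < M j := Nat.cast_pos.2 (Nat.pos_of_ne_zero hj)
  set v : PH9Idx M j → ℝ := fun k => Real.log ‖z k.1‖ with hv
  have hre : ∀ i, M i ≠ 0 → (ph9L M j (fun k => (v k : ℂ)) τ i).re = Real.log ‖z i‖ := by
    -- the forms have the right real parts
    intro i hi
    by_cases hij : i = j
    · subst hij
      have h1 : Real.log ‖eval z (ph9Pi M)‖ = Real.log ‖Complex.exp τ‖ := by rw [hτ]
      rw [ph9_eval, norm_prod, Complex.norm_exp, Real.log_exp] at h1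
      have h2 : Real.log (∏ k, ‖z k ^ M k‖) = ∑ k, (M k : ℝ) * Real.log ‖z k‖ := by
        rw [Real.log_prod]
        · refine Finset.sum_congr rfl fun k _ => ?_
          rw [norm_pow, Real.log_pow]
        · intro k _
          by_cases hk : M k = 0
          · rw [hk, pow_zero, norm_one]
            exact one_ne_zero
          · exact norm_ne_zero_iff.2 (pow_ne_zero _ ((hz k).2 hk))
      rw [h2] at h1
      -- compare with the identity for the forms
      have h3 := congrArg Complex.re (ph9_sum M i hj (fun k => (v k : ℂ)) τ)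
      rw [Complex.re_sum] at h3
      have h4 : ∀ k, ((M k : ℂ) * ph9L M i (fun k => (v k : ℂ)) τ k).re =
          (M k : ℝ) * (ph9L M i (fun k => (v k : ℂ)) τ k).re := by
        intro k
        rw [← Complex.ofReal_natCast, Complex.re_ofReal_mul]
      rw [Finset.sum_congr rfl fun k _ => h4 k] at h3
      have h5 : ∑ k, (M k : ℝ) * (ph9L M i (fun k => (v k : ℂ)) τ k).re =
          ∑ k, (M k : ℝ) * Real.log ‖z k‖ := by rw [h3, h1]
      rw [← Finset.add_sum_erase _ _ (Finset.mem_univ i),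
        ← Finset.add_sum_erase _ (fun k => (M k : ℝ) * Real.log ‖z k‖) (Finset.mem_univ i)] at h5
      have h6 : ∑ k ∈ Finset.univ.erase i, (M k : ℝ) * (ph9L M i (fun k => (v k : ℂ)) τ k).re =
          ∑ k ∈ Finset.univ.erase i, (M k : ℝ) * Real.log ‖z k‖ := by
        refine Finset.sum_congr rfl fun k hk => ?_
        by_cases hMk : M k = 0
        · rw [hMk, Nat.cast_zero, zero_mul, zero_mul]
        · rw [ph9_re, dif_pos ⟨hMk, Finset.ne_of_mem_erase hk⟩]
      rw [h6] at h5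
      have h7 := add_right_cancel h5
      exact mul_left_cancel₀ hj'.ne' h7
    · rw [ph9_re, dif_pos ⟨hi, hij⟩]
  refine ⟨v, fun i => if M i = 0 then 1 else ph9Psi M j (fun k => (v k : ℂ)) τ i / z i, ?_, ?_, ?_⟩
  · intro i
    simp only
    by_cases hi : M i = 0
    · rw [if_pos hi, norm_one]
    · rw [if_neg hi, norm_div, ph9Psi, if_neg hi, Complex.norm_exp, hre i hi, Real.exp_log
        (norm_pos_iff.2 ((hz i).2 hi)), div_self (norm_ne_zero_iff.2 ((hz i).2 hi))]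
  · have h1 : ∀ i, (if M i = 0 then 1 else ph9Psi M j (fun k => (v k : ℂ)) τ i / z i) ^ M i =
        ph9Psi M j (fun k => (v k : ℂ)) τ i ^ M i / z i ^ M i := by
      intro i
      by_cases hi : M i = 0
      · rw [if_pos hi, hi, pow_zero, pow_zero, pow_zero, div_one]
      · rw [if_neg hi, div_pow]
    rw [Finset.prod_congr rfl fun i _ => h1 i, Finset.prod_div_distrib, ← ph9_eval, ← ph9_eval,
      ph9_inv M j hj, hτ, div_self (Complex.exp_ne_zero _)]
  · funext i
    change _ = (if M i = 0 then 1 else ph9Psi M j (fun k => (v k : ℂ)) τ i / z i) * z i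
    by_cases hi : M i = 0
    · rw [if_pos hi, one_mul, ph9Psi, if_pos hi]
      by_contra h
      exact (hz i).1 (fun h0 => h h0.symm) hi
    · rw [if_neg hi, div_mul_cancel₀ _ ((hz i).2 hi)]

end Pool.Agent.Lib.Helper34.PH
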